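import Mathlib
import Pool.Agent.W793.YM.Lat2
import Pool.Agent.Y14.PlaqB

/-!
# The links in the comb gauge: second moments
-/

open MeasureTheory Matrix
open scoped Matrix.Norms.Frobenius ContDiff
open Pool.Agent.H906R3.YM Pool.Agent.W793.YM Pool.Agent.TH618.YM Pool.Agent.Y14

namespace Pool.Agent.Run7.h630.YM

set_option linter.unusedSectionVars false
set_option linter.unusedVariables false

noncomputable section

section lines

variable {d : ℕ} {G : Type*} [Group G]

/-- the product of `k` links in the direction `i` from `v` -/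
def lnp (u : Pt d → Fin d → G) (i : Fin d) : ℕ → Pt d → G
  | 0, _ => 1
  | k + 1, v => u v i * lnp u i k (v + es i)

lemma lnp_succ' (u : Pt d → Fin d → G) (i : Fin d) (k : ℕ) (v : Pt d) :
    lnp u i (k + 1) v = lnp u i k v * u (v + k • es i) i := by
  induction k generalizing v with
  | zero => simp [lnp]
  | succ k ih =>
    show u v i * lnp u i (k + 1) (v + es i) = u v i * lnp u i k (v + es i) * _
    rw [ih (v + es i), mul_assoc, add_assoc, ← succ_nsmul']

/-- the coordinates smaller than `j` and `j` itself set to zero -/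
def cut (w : Pt d) (j : Fin d) : Pt d := fun i => if i = j then 0 else w i

lemma cut_add (w : Pt d) (j : Fin d) : cut w j + w j • es j = w := by
  funext i
  unfold cut
  by_cases h : i = j
  · subst h; simp [es]
  · simp [es, h]

/-- the comb transport: the last segment -/
lemma fr_line (u : Pt d → Fin d → G) (w : Pt d) (j : Fin d) (k : ℕ) (hw : ∀ i ≤ j, w i = 0) :
    fr u (w + k • es j) = fr u w * lnp u j k w := by
  induction k with
  | zero => simp [lnp]
  | succ k ih =>
    have h1 : ∃ i, 0 < (w + (k + 1) • es j) i := ⟨j, by simp [es]⟩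
    have h2 : mi (w + (k + 1) • es j) h1 = j := by
      refine mi_eq _ _ (by simp [es]) fun i hi => ?_
      simp [es, hw i hi.le, hi.ne]
    have h3 : w + (k + 1) • es j - es j = w + k • es j := by
      rw [succ_nsmul, ← add_assoc, add_tsub_cancel_right]
    rw [fr_succ u h1, h2, h3, ih, lnp_succ', mul_assoc]

/-- the strip of the comb -/
def rp (u : Pt d → Fin d → G) (v : Pt d) (j k : Fin d) (q : ℕ) : G :=
  lnp u j q v * u (v + q • es j) k * (lnp u j q (v + es k))⁻¹ * (u v k)⁻¹

/-- the coordinates smaller than `t` set to zero -/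
def ctb (w : Pt d) (t : ℕ) : Pt d := fun i => if (i : ℕ) < t then 0 else w i

lemma ctb_zero (w : Pt d) : ctb w 0 = w := by
  funext i; simp [ctb]

lemma ctb_le (w : Pt d) (t : ℕ) (i : Fin d) : ctb w t i ≤ w i := by
  unfold ctb; split_ifs <;> omega

lemma ctb_succ (w : Pt d) (j : Fin d) : ctb w (j : ℕ) = ctb w (j + 1) + w j • es j := by
  funext i
  unfold ctb
  by_cases h : i = j
  · subst h; simp [es]
  · have h1 : ((i : ℕ) < j) ↔ ((i : ℕ) < j + 1) := by
      have : (i : ℕ) ≠ j := fun h2 => h (Fin.ext h2)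
      omega
    simp [es, h, h1]

lemma tl_strip (u : Pt d → Fin d → G) (w : Pt d) {j k : Fin d} (hjk : j < k) (q : ℕ)
    (hw : ∀ i ≤ j, w i = 0) :
    tl u (w + q • es j) k = fr u w * rp u w j k q * (fr u w)⁻¹ * tl u w k := by
  have h1 : ∀ i ≤ j, (w + es k) i = 0 := fun i hi => by
    have : i ≠ k := fun h => absurd (h ▸ hi) (not_le.2 hjk)
    simp [es, hw i hi, this]
  unfold tl rp
  rw [add_right_comm w (q • es j) (es k), fr_line u w j q hw, fr_line u (w + es k) j q h1]
  group

end lines


section dev

variable {G : Type*} [Group G] [TopologicalSpace G] [IsTopologicalGroup G] [CompactSpace G]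
  [SecondCountableTopology G] [MeasurableSpace G] [BorelSpace G]
  {N n : ℕ} {L : LD G N n} {d : ℕ}

lemma dv_tl_strips (u : Pt d → Fin d → G) (w : Pt d) (k : Fin d) :
    dv L (tl u w k) ≤ ∑ j, if j < k then dv L (rp u (ctb w (j + 1)) j k (w j)) else 0 := by
  have key : ∀ s t : ℕ, s + t = k → dv L (tl u (ctb w t) k) ≤
      ∑ j : Fin d, if t ≤ j ∧ j < k then dv L (rp u (ctb w (j + 1)) j k (w j)) else 0 := by
    intro s
    induction s with
    | zero =>
      intro t ht
      have h1 : tl u (ctb w t) k = 1 := tl_tree u _ k fun i hi => by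
        unfold ctb
        rw [if_pos]
        have : (i : ℕ) < k := hi
        omega
      rw [h1, dv_one]
      exact Finset.sum_nonneg fun j _ => by
        split_ifs
        · exact dv_nonneg _
        · exact le_rfl
    | succ s ih =>
      intro t ht
      have htd : t < d := by have := k.2; omega
      obtain ⟨j0, hj0⟩ : ∃ j0 : Fin d, j0 = ⟨t, htd⟩ := ⟨_, rfl⟩
      have hjt : (j0 : ℕ) = t := by rw [hj0]
      have hjk : j0 < k := by
        show (j0 : ℕ) < k
        omega
      have h1 := ctb_succ w j0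
      rw [hjt] at h1
      have h2 := tl_strip u (ctb w (t + 1)) hjk (w j0) (fun i hi => by
        unfold ctb
        rw [if_pos]
        have : (i : ℕ) ≤ j0 := hi
        omega)
      rw [h1, h2]
      refine (dv_mul _ _).trans ?_
      rw [dv_conj]
      have h3 := ih (t + 1) (by omega)
      have h4 : (∑ j : Fin d, if t ≤ j ∧ j < k then dv L (rp u (ctb w (j + 1)) j k (w j)) else 0) =
          dv L (rp u (ctb w (t + 1)) j0 k (w j0)) +
          ∑ j : Fin d, if t + 1 ≤ j ∧ j < k then
            dv L (rp u (ctb w (j + 1)) j k (w j)) else 0 := by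
        have h5 : dv L (rp u (ctb w (t + 1)) j0 k (w j0)) = ∑ j : Fin d, if j = j0 then
            dv L (rp u (ctb w (j + 1)) j k (w j)) else 0 := by
          rw [Finset.sum_ite_eq' Finset.univ j0, if_pos (Finset.mem_univ _), hjt]
        rw [h5, ← Finset.sum_add_distrib]
        refine Finset.sum_congr rfl fun j _ => ?_
        by_cases hj : j = j0
        · subst hj
          rw [if_pos ⟨by omega, hjk⟩, if_pos rfl, if_neg (by omega), add_zero]
        · have h6 : (j : ℕ) ≠ t := fun h => hj (Fin.ext (by rw [h, hjt]))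
          rw [if_neg hj, zero_add]
          by_cases h7 : t ≤ (j : ℕ) ∧ j < k
          · rw [if_pos h7, if_pos ⟨by omega, h7.2⟩]
          · rw [if_neg h7, if_neg fun h8 => h7 ⟨by omega, h8.2⟩]
      rw [h4]
      linarith
  have h := key k 0 (by omega)
  rw [ctb_zero] at h
  refine h.trans (le_of_eq (Finset.sum_congr rfl fun j _ => ?_))
  simp

lemma lnp_uu {l : ℕ} [NeZero l] (U : Ed d l → G) (i : Fin d) (k : ℕ) (v : Pt d) :
    lnp (uu U) i k v = ln U i k (ct l v) := by
  induction k generalizing v with
  | zero => rfl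
  | succ k ih =>
    show uu U v i * lnp (uu U) i k (v + es i) = U (ct l v, i) * ln U i k (ct l v + eT i)
    rw [ih, ct_add]
    rfl

lemma ct_smul {l : ℕ} [NeZero l] (v : Pt d) (q : ℕ) (j : Fin d) :
    ct l (v + q • es j) = ct l v + q • eT j := by
  induction q with
  | zero => simp
  | succ q ih => rw [succ_nsmul, succ_nsmul, ← add_assoc, ct_add, ih, add_assoc]

lemma rp_uu {l : ℕ} [NeZero l] (U : Ed d l → G) (v : Pt d) (j k : Fin d) (q : ℕ) :
    rp (uu U) v j k q = rect U (ct l v) j k q 1 := by
  unfold rp rect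
  rw [lnp_uu, lnp_uu, ct_add]
  unfold uu
  rw [ct_smul, one_nsmul]
  show _ = ln U j q (ct l v) * (U (ct l v + q • eT j, k) * 1) * (ln U j q (ct l v + eT k))⁻¹ *
    (U (ct l v, k) * 1)⁻¹
  rw [mul_one, mul_one]

end dev

section moments

variable {G : Type*} [Group G] [TopologicalSpace G] [IsTopologicalGroup G] [CompactSpace G]
  [SecondCountableTopology G] [MeasurableSpace G] [BorelSpace G] (μ : Measure G)
  [IsProbabilityMeasure μ] [μ.IsMulLeftInvariant] [μ.IsMulRightInvariant] [μ.IsInvInvariant]
  {N n : ℕ} {L : LD G N n} {d m : ℕ} [NeZero m]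

lemma rect_cont {l : ℕ} [NeZero l] (x : St d l) (i j : Fin d) (R T : ℕ) :
    Continuous fun U : Ed d l → G => rect U x i j R T := by
  have h : ∀ (i : Fin d) (k : ℕ) (x : St d l), Continuous fun U : Ed d l → G => ln U i k x := by
    intro i k
    induction k with
    | zero => intro x; exact continuous_const
    | succ k ih => intro x; exact (continuous_apply _).mul (ih _)
  unfold rect
  exact (((h _ _ _).mul (h _ _ _)).mul (h _ _ _).inv).mul (h _ _ _).inv

lemma gam_cont {l : ℕ} [NeZero l] (k : ℕ) (w : Pt d) :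
    Continuous fun U : Ed d l → G => gam (uu U) k w := by
  induction k generalizing w with
  | zero => exact continuous_const
  | succ k ih =>
    simp only [gam]
    by_cases h : ∃ i, 0 < w i
    · simp only [dif_pos h]
      exact (ih _).mul (continuous_apply _)
    · simp only [dif_neg h]
      exact continuous_const

lemma Pc_cont {l : ℕ} [NeZero l] (x : St d l) : Continuous fun U : Ed d l → G => Pc U x :=
  gam_cont _ _

lemma tlT_cont {l : ℕ} [NeZero l] (x : St d l) (k : Fin d) :
    Continuous fun U : Ed d l → G => tlT U x k :=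
  ((Pc_cont x).mul (continuous_apply _)).mul (Pc_cont _).inv

/-- the second moment of the links in the comb gauge -/
theorem tl_sq (hm : 2 ≤ m) (hN : 1 ≤ N) {β : ℝ} (hβ : 0 < β) {M : ℕ} {x : St d (2 * m)}
    {k : Fin d} (hx : ∀ i, wv x i ≤ M) (hk : wv x k + 1 < 2 * m) :
    EX μ L β (fun U : Ed d (2 * m) → G => dv L (tlT U x k) ^ 2) ≤
      2 * N ^ 2 * d ^ 2 * M / β := by
  have h1 : ∀ U : Ed d (2 * m) → G, dv L (tlT U x k) ^ 2 ≤
      d * ∑ j : Fin d, if j < k then
        dv L (rect U (ct (2 * m) (ctb (wv x) (j + 1))) j k (wv x j) 1) ^ 2 else 0 := by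
    intro U
    have h2 := dv_tl_strips (L := L) (uu U) (wv x) k
    rw [← tlT_eq U hk] at h2
    have h3 := pow_le_pow_left₀ (dv_nonneg _) h2 2
    refine h3.trans ?_
    have h4 := sq_sum_le_card_mul_sum_sq (s := (Finset.univ : Finset (Fin d)))
      (f := fun j => if j < k then dv L (rp (uu U) (ctb (wv x) (j + 1)) j k (wv x j)) else 0)
    rw [Finset.card_univ, Fintype.card_fin] at h4
    refine h4.trans (le_of_eq ?_)
    congr 1
    refine Finset.sum_congr rfl fun j _ => ?_
    split_ifs
    · rw [rp_uu]
    · norm_num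
  have hc : ∀ j : Fin d, Continuous fun U : Ed d (2 * m) → G => if j < k then
      dv L (rect U (ct (2 * m) (ctb (wv x) (j + 1))) j k (wv x j) 1) ^ 2 else 0 := by
    intro j
    split_ifs
    · exact (dv_cont.comp (rect_cont _ _ _ _ _)).pow 2
    · exact continuous_const
  have h0 := EX_mono μ (L := L) (β := β) (F := fun U : Ed d (2 * m) → G => dv L (tlT U x k) ^ 2)
    (H := fun U => d * ∑ j : Fin d, if j < k then
        dv L (rect U (ct (2 * m) (ctb (wv x) (j + 1))) j k (wv x j) 1) ^ 2 else 0)
    ((dv_cont.comp (tlT_cont x k)).pow 2)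
    (continuous_const.mul (continuous_finsetSum _ fun j _ => hc j)) h1
  refine h0.trans ?_
  rw [EX_smul, EX_sum μ _ fun j _ => hc j]
  have h5 : ∀ j : Fin d, EX μ L β (fun U : Ed d (2 * m) → G => if j < k then
      dv L (rect U (ct (2 * m) (ctb (wv x) (j + 1))) j k (wv x j) 1) ^ 2 else 0) ≤
      2 * N ^ 2 / β * M := by
    intro j
    by_cases hj : j < k
    · simp only [hj, if_true]
      have h6 := rect_bound μ (L := L) hm hN hβ hj.ne (ct (2 * m) (ctb (wv x) (j + 1)))
        (wv_lt x j) (show 1 < 2 * m by omega)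
      refine h6.trans ?_
      have h7 : ((wv x j : ℕ) : ℝ) ≤ M := by exact_mod_cast hx j
      rw [Nat.cast_one, mul_one]
      exact mul_le_mul_of_nonneg_left h7 (by positivity)
    · simp only [hj, if_false]
      rw [EX_const]
      positivity
  calc (d : ℝ) * ∑ j : Fin d, EX μ L β (fun U : Ed d (2 * m) → G => if j < k then
      dv L (rect U (ct (2 * m) (ctb (wv x) (j + 1))) j k (wv x j) 1) ^ 2 else 0) ≤
      d * ∑ _j : Fin d, 2 * N ^ 2 / β * M := by
        refine mul_le_mul_of_nonneg_left (Finset.sum_le_sum fun j _ => h5 j) (by positivity)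
    _ = _ := by
      rw [Finset.sum_const, Finset.card_univ, Fintype.card_fin, nsmul_eq_mul]
      ring

end moments

end

end Pool.Agent.Run7.h630.YM
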