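import Mathlib
import Pool.Agent.Run7.h630.Tile

/-!
# Local bounds for the derivatives along vector fields in the comb gauge
-/

open MeasureTheory Matrix
open scoped Matrix.Norms.Frobenius ContDiff
open Pool.Agent.H906R3.YM Pool.Agent.W793.YM

namespace Pool.Agent.Run7.h630.YM

set_option linter.unusedSectionVars false
set_option linter.unusedVariables false

noncomputable section

variable {G : Type*} [Group G] [TopologicalSpace G] [IsTopologicalGroup G] [CompactSpace G]
  [SecondCountableTopology G] [MeasurableSpace G] [BorelSpace G]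
  {N n : ℕ} {L : LD G N n} {d l : ℕ} [NeZero l] {A : St d l → ℝ} {ι : Fin d} {M : ℕ}

variable (L) in
/-- deviation of the plaquettes at `x` -/
def pd (x : St d l) (U : Ed d l → G) : ℝ := ∑ j, ∑ k, dv L (plqT U x j k)

variable (L) in
/-- deviation of the links at `x` in the comb gauge -/
def td (x : St d l) (U : Ed d l → G) : ℝ := ∑ k, dv L (tlT U x k)

lemma pd_nonneg (x : St d l) (U : Ed d l → G) : 0 ≤ pd L x U :=
  Finset.sum_nonneg fun _ _ => Finset.sum_nonneg fun _ _ => dv_nonneg _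

lemma td_nonneg (x : St d l) (U : Ed d l → G) : 0 ≤ td L x U :=
  Finset.sum_nonneg fun _ _ => dv_nonneg _

lemma le_pd (x : St d l) (U : Ed d l → G) (j k : Fin d) : dv L (plqT U x j k) ≤ pd L x U :=
  (Finset.single_le_sum (f := fun k => dv L (plqT U x j k)) (fun _ _ => dv_nonneg _)
    (Finset.mem_univ k)).trans (Finset.single_le_sum (f := fun j => ∑ k, dv L (plqT U x j k))
      (fun _ _ => Finset.sum_nonneg fun _ _ => dv_nonneg _) (Finset.mem_univ j))

lemma le_td (x : St d l) (U : Ed d l → G) (k : Fin d) : dv L (tlT U x k) ≤ td L x U :=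
  Finset.single_le_sum (f := fun k => dv L (tlT U x k)) (fun _ _ => dv_nonneg _)
    (Finset.mem_univ k)

lemma pd_cont (x : St d l) : Continuous fun U : Ed d l → G => pd L x U :=
  continuous_finsetSum _ fun j _ => continuous_finsetSum _ fun k _ =>
    dv_cont.comp (plqT_cont x j k)

lemma td_cont (x : St d l) : Continuous fun U : Ed d l → G => td L x U :=
  continuous_finsetSum _ fun k _ => dv_cont.comp (tlT_cont x k)

/-- the derivative of the action to first order -/
theorem V_act_loc (A : St d l → ℝ) (ι : Fin d) (α : Fin n) (U : Ed d l → G) :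
    |(Vf L A ι α (aS0 L d l)).1 U - ∑ k, ip2 (Dp k A)
      (fun x => fi L α (Pc U x * plqT U x ι k * (Pc U x)⁻¹))| ≤
      ∑ x, ∑ k, |A (x + eT k)| * (2 * (td L x U * pd L x U)) := by
  rw [V_act0]
  have h1 : ∑ k, ip2 (Dp k A) (fun x => fi L α (Pc U x * plqT U x ι k * (Pc U x)⁻¹)) =
      ∑ x, ∑ k, (if k ≠ ι then
        (A (x + eT k) - A x) * fi L α (Pc U x * plqT U x ι k * (Pc U x)⁻¹) else 0) := by
    unfold ip2 Dp
    rw [Finset.sum_comm]
    refine Finset.sum_congr rfl fun x _ => Finset.sum_congr rfl fun k _ => ?_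
    split_ifs with hk
    · rfl
    · have : k = ι := not_not.1 hk
      subst this
      have h2 : plqT U x k k = 1 := by unfold plqT; group
      simp only [h2, mul_one, mul_inv_cancel, fi_one, mul_zero]
  rw [h1, ← Finset.sum_sub_distrib]
  refine (Finset.abs_sum_le_sum_abs _ _).trans (Finset.sum_le_sum fun x _ => ?_)
  rw [← Finset.sum_sub_distrib]
  refine (Finset.abs_sum_le_sum_abs _ _).trans (Finset.sum_le_sum fun k _ => ?_)
  have hp := pd_nonneg (L := L) x U
  have ht := td_nonneg (L := L) x U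
  by_cases hk : k ≠ ι
  · rw [if_pos hk, if_pos hk, m1_ip]
    have h3 := fi_conj (L := L) α (tlT U x k)⁻¹ (gB U ι k x * (tlT U x k)⁻¹)
    have h4 : (tlT U x k)⁻¹ * (gB U ι k x * (tlT U x k)⁻¹) * (tlT U x k)⁻¹⁻¹ =
        (tlT U x k)⁻¹ * gB U ι k x := by group
    rw [h4] at h3
    have h5 : -(A x * fi L α (gB U ι k x * (tlT U x k)⁻¹)) +
        A (x + eT k) * fi L α ((tlT U x k)⁻¹ * gB U ι k x) -
        (A (x + eT k) - A x) * fi L α (Pc U x * plqT U x ι k * (Pc U x)⁻¹) =
        A (x + eT k) * (fi L α ((tlT U x k)⁻¹ * gB U ι k x) -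
          fi L α (gB U ι k x * (tlT U x k)⁻¹)) := by
      rw [gB_mul]; ring
    rw [h5, abs_mul]
    refine mul_le_mul_of_nonneg_left (h3.trans ?_) (abs_nonneg _)
    rw [gB_mul, dv_conj, dv_inv]
    have h6 := le_pd (L := L) x U ι k
    have h7 := le_td (L := L) x U k
    have h8 := mul_le_mul h7 h6 (dv_nonneg _) ht
    linarith
  · rw [if_neg hk, if_neg hk, sub_self, abs_zero]
    positivity

/-- the derivative of the flux of one plaquette along a curve of configurations -/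
lemma V_Phg_loc {K : St d l → ℝ} {j k : Fin d} (α b : Fin n) (U : Ed d l → G)
    {a0 : ℝ} (ha0 : 0 ≤ a0) (ha : ∀ x, |A x| ≤ a0) (hK : ∀ x, K x ≠ 0 → ∀ i, wv x i < M)
    {c : St d l → ℝ} {W' : St d l → Mat N} {e : St d l → ℝ}
    (hW : ∀ x, HasDerivAt (fun s => L.rho (Pc U x * plqT (fl L A ι α s U) x j k * (Pc U x)⁻¹))
      (W' x) 0)
    (hc : ∀ x, K x ≠ 0 → |trX L b (W' x) - c x| ≤ e x) :
    |(Vf L A ι α (PhS L K j k b)).1 U - ∑ x, K x * c x| ≤
      ∑ x, |K x| * (e x + 2 * (d * M * a0) * pd L x U) := by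
  have h1 := fl_deriv0 (A := A) (ι := ι) α (PhS L K j k b) U
  have hx : ∀ x, ∃ lam : ℝ, |K x| * |lam| ≤ |K x| * (d * M * a0) ∧ (K x = 0 ∨ ∀ s : ℝ,
      Pc (fl L A ι α s U) x = L.ex α (s * lam) * Pc U x) := by
    intro x
    by_cases h0 : K x = 0
    · exact ⟨0, by rw [h0]; simp, Or.inl h0⟩
    · obtain ⟨lam, h2, h3⟩ := Pc_flg (L := L) (A := A) (ι := ι) ha0 ha α x (hK x h0)
      exact ⟨lam, mul_le_mul_of_nonneg_left h2 (abs_nonneg _), Or.inr fun s => h3 s U⟩
  choose lam hlam hPc using hx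
  have h2 : (fun s => (PhS L K j k b).1 (fl L A ι α s U)) = fun s => ∑ x, K x *
      trX L b (L.rho (L.ex α (s * lam x)) *
        L.rho (Pc U x * plqT (fl L A ι α s U) x j k * (Pc U x)⁻¹) *
        L.rho (L.ex α (s * -lam x))) := by
    funext s
    rw [PhS_apply]
    unfold Ph fi
    refine Finset.sum_congr rfl fun x _ => ?_
    rcases hPc x with h0 | h0
    · rw [h0, zero_mul, zero_mul]
    · congr 2
      rw [← L.rho.map_mul, ← L.rho.map_mul]
      congr 1
      rw [h0 s, mul_neg, ex_neg]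
      group
  rw [h2] at h1
  have h3 : HasDerivAt (fun s => ∑ x, K x *
      trX L b (L.rho (L.ex α (s * lam x)) *
        L.rho (Pc U x * plqT (fl L A ι α s U) x j k * (Pc U x)⁻¹) *
        L.rho (L.ex α (s * -lam x)))) (∑ x, K x * trX L b (lam x • (L.X α *
          L.rho (Pc U x * plqT U x j k * (Pc U x)⁻¹) -
          L.rho (Pc U x * plqT U x j k * (Pc U x)⁻¹) * L.X α) + W' x)) 0 := by
    refine HasDerivAt.fun_sum fun x _ => HasDerivAt.const_mul _ ?_
    have h4 := hasDeriv_conj (L := L) α (lam x) (hW x)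
    simp only [fl_zero] at h4
    exact (trX L b).hasFDerivAt.comp_hasDerivAt (0 : ℝ) h4
  rw [h1.unique h3, ← Finset.sum_sub_distrib]
  refine (Finset.abs_sum_le_sum_abs _ _).trans ?_
  refine Finset.sum_le_sum fun x _ => ?_
  rw [← mul_sub, abs_mul]
  by_cases h0 : K x = 0
  · rw [h0]; simp
  rw [map_add, map_smul, smul_eq_mul]
  have e1 := hc x h0
  have e2 := comm_bound (L := L) α b (Pc U x * plqT U x j k * (Pc U x)⁻¹)
  rw [dv_conj] at e2
  have e3 := le_pd (L := L) x U j k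
  have hp := pd_nonneg (L := L) x U
  obtain ⟨y, hy⟩ : ∃ y, y = trX L b (L.X α * L.rho (Pc U x * plqT U x j k * (Pc U x)⁻¹) -
    L.rho (Pc U x * plqT U x j k * (Pc U x)⁻¹) * L.X α) := ⟨_, rfl⟩
  rw [← hy] at e2 ⊢
  have hKp : 0 < |K x| := abs_pos.2 h0
  have e4 : |lam x| ≤ d * M * a0 := le_of_mul_le_mul_left (hlam x) hKp
  refine mul_le_mul_of_nonneg_left ?_ hKp.le
  have e5 : lam x * y + trX L b (W' x) - c x = lam x * y + (trX L b (W' x) - c x) := by ring
  rw [e5]
  refine (abs_add_le _ _).trans ?_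
  rw [abs_mul, add_comm]
  refine add_le_add e1 ?_
  calc |lam x| * |y| ≤ (d * M * a0) * (2 * pd L x U) :=
        mul_le_mul e4 (e2.trans (by linarith)) (abs_nonneg _) (by positivity)
    _ = _ := by ring

/-- the derivative of the flux, first index -/
theorem V_Ph_first_loc {a0 : ℝ} (ha0 : 0 ≤ a0) (ha : ∀ x, |A x| ≤ a0)
    {K : St d l → ℝ} (hK : ∀ x, K x ≠ 0 → ∀ i, wv x i < M) {k : Fin d} (hk : k ≠ ι)
    (α b : Fin n) (U : Ed d l → G) :
    |(Vf L A ι α (PhS L K ι k b)).1 U - (if b = α then ip2 K (Dp k A) else 0)| ≤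
      ∑ x, |K x| * (a0 * (2 * (d * M + 1) * pd L x U + 2 * td L x U)) := by
  have h1 := V_Phg_loc (L := L) (A := A) (ι := ι) (K := K) (j := ι) (k := k) (M := M) α b U ha0
    ha hK
    (c := fun x => (if b = α then (1 : ℝ) else 0) * (A (x + eT k) - A x))
    (W' := fun x => m1 L α (L.rho (gB U ι k x)) (L.rho (tlT U x k)⁻¹) (A x) (A (x + eT k)) 0)
    (e := fun x => a0 * (2 * pd L x U + 2 * td L x U)) (fun x => by
      have h2 := hasDeriv_m (L := L) α (L.rho (gB U ι k x)) (L.rho (tlT U x k)⁻¹) (A x)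
        (A (x + eT k)) 0
      refine h2.congr_of_eventuallyEq (Filter.Eventually.of_forall fun s => ?_)
      simp only
      rw [plq_flg _ _ _ _ hk, L.rho.map_mul, L.rho.map_mul, L.rho.map_mul])
    (fun x h0 => by
      rw [m1_zero]
      have h1 := X_right (L := L) b α (gB U ι k x * (tlT U x k)⁻¹)
      have h2 := X_sand (L := L) b α (gB U ι k x) (tlT U x k)⁻¹
      rw [trX_X, sub_neg_eq_add, gB_mul, dv_conj] at h1 h2
      rw [dv_inv] at h2
      have h3 := le_pd (L := L) x U ι k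
      have h4 := le_td (L := L) x U k
      rw [gB_mul]
      obtain ⟨δ, hδ⟩ : ∃ δ : ℝ, δ = if b = α then 1 else 0 := ⟨_, rfl⟩
      obtain ⟨x1, hx1⟩ : ∃ y, y = trX L b (L.X α * L.rho (Pc U x * plqT U x ι k * (Pc U x)⁻¹)) :=
        ⟨_, rfl⟩
      obtain ⟨x2, hx2⟩ : ∃ y, y = trX L b (L.rho (gB U ι k x) * L.X α * L.rho (tlT U x k)⁻¹) :=
        ⟨_, rfl⟩
      rw [← hx1, ← hδ] at h1
      rw [← hx2, ← hδ] at h2
      rw [← hx1, ← hx2, ← hδ]
      have e1 : A x * x1 - A (x + eT k) * x2 - δ * (A (x + eT k) - A x) =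
          A x * (x1 + δ) - A (x + eT k) * (x2 + δ) := by ring
      rw [e1, sub_eq_add_neg]
      refine (abs_add_le _ _).trans ?_
      rw [abs_neg, abs_mul, abs_mul]
      have f1 : |A x| * |x1 + δ| ≤ a0 * pd L x U :=
        mul_le_mul (ha x) (h1.trans h3) (abs_nonneg _) ha0
      have f2 : |A (x + eT k)| * |x2 + δ| ≤ a0 * (pd L x U + 2 * td L x U) :=
        mul_le_mul (ha _) (h2.trans (by linarith)) (abs_nonneg _) ha0
      nlinarith)
  have h2 : (if b = α then ip2 K (Dp k A) else 0) =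
      ∑ x, K x * ((if b = α then (1 : ℝ) else 0) * (A (x + eT k) - A x)) := by
    unfold ip2 Dp
    split_ifs <;> simp
  rw [h2]
  refine h1.trans (Finset.sum_le_sum fun x _ => mul_le_mul_of_nonneg_left (le_of_eq ?_)
    (abs_nonneg _))
  ring

/-- the derivative of the flux, other indices -/
theorem V_Ph_none_loc {a0 : ℝ} (ha0 : 0 ≤ a0) (ha : ∀ x, |A x| ≤ a0)
    {K : St d l → ℝ} (hK : ∀ x, K x ≠ 0 → ∀ i, wv x i < M) {j k : Fin d} (hj : j ≠ ι)
    (hk : k ≠ ι) (α b : Fin n) (U : Ed d l → G) :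
    |(Vf L A ι α (PhS L K j k b)).1 U| ≤
      ∑ x, |K x| * (a0 * (2 * (d * M + 1) * pd L x U + 2 * td L x U)) := by
  have h1 := V_Phg_loc (L := L) (A := A) (ι := ι) (K := K) (j := j) (k := k) (M := M) α b U ha0
    ha hK
    (c := fun x => 0) (W' := fun x => 0) (e := fun _ => 0) (fun x => by
      simp only [plq_fln α _ U x hj hk]
      exact hasDerivAt_const _ _)
    (fun x h0 => by simp)
  simp only [mul_zero, Finset.sum_const_zero, sub_zero, zero_add] at h1
  refine h1.trans (Finset.sum_le_sum fun x _ => mul_le_mul_of_nonneg_left ?_ (abs_nonneg _))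
  have hp := pd_nonneg (L := L) x U
  have ht := td_nonneg (L := L) x U
  have h3 : 0 ≤ a0 * pd L x U := by positivity
  have h4 : 0 ≤ a0 * td L x U := by positivity
  nlinarith

/-- the derivative of the action along a one form -/
theorem VA_act_loc (A : Fin n → Fin d → St d l → ℝ) (U : Ed d l → G) :
    |(VA L A (aS0 L d l)).1 U + ∑ α, ipF (d1 (A α)) (Fz L U α)| ≤
      ∑ α, ∑ ι, ∑ x, ∑ k, |A α ι (x + eT k)| * (2 * (td L x U * pd L x U)) := by
  rw [VA_val]
  have h1 : ∑ α, ∑ ι, (Vf L (A α ι) ι α (aS0 L d l)).1 U + ∑ α, ipF (d1 (A α)) (Fz L U α) =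
      ∑ α, ∑ ι, ((Vf L (A α ι) ι α (aS0 L d l)).1 U - ∑ k, ip2 (Dp k (A α ι))
        (fun x => fi L α (Pc U x * plqT U x ι k * (Pc U x)⁻¹))) := by
    rw [← Finset.sum_add_distrib]
    refine Finset.sum_congr rfl fun α _ => ?_
    rw [ipF_d1' (Fz_asy U α), Finset.sum_sub_distrib]
    rfl
  rw [h1]
  refine (Finset.abs_sum_le_sum_abs _ _).trans (Finset.sum_le_sum fun α _ => ?_)
  exact (Finset.abs_sum_le_sum_abs _ _).trans (Finset.sum_le_sum fun ι _ =>
    V_act_loc (A α ι) ι α U)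

/-- the derivative of the smeared flux along a one form -/
theorem VA_PhS_loc {A : Fin n → Fin d → St d l → ℝ} {a0 : ℝ} (ha0 : 0 ≤ a0)
    (ha : ∀ α ι x, |A α ι x| ≤ a0) {K : St d l → ℝ} (hK : ∀ x, K x ≠ 0 → ∀ i, wv x i < M)
    (j k : Fin d) (a : Fin n) (U : Ed d l → G) :
    |(VA L A (PhS L K j k a)).1 U - (ip2 K (Dp k (A a j)) - ip2 K (Dp j (A a k)))| ≤
      n * d * ∑ x, |K x| * (a0 * (2 * (d * M + 1) * pd L x U + 2 * td L x U)) := by
  obtain ⟨X, hX⟩ : ∃ X, X = ∑ x, |K x| * (a0 * (2 * (d * M + 1) * pd L x U + 2 * td L x U)) :=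
    ⟨_, rfl⟩
  have hX0 : 0 ≤ X := by
    rw [hX]
    refine Finset.sum_nonneg fun x _ => ?_
    have hp := pd_nonneg (L := L) x U
    have ht := td_nonneg (L := L) x U
    positivity
  rw [← hX]
  by_cases hjk : j = k
  · subst hjk
    rw [PhS_self, map_zero, sub_self, sub_zero]
    show |(0 : ℝ)| ≤ _
    rw [abs_zero]
    positivity
  rw [VA_val]
  obtain ⟨c, hc⟩ : ∃ c : Fin n → Fin d → ℝ, c = fun α ι => if a = α then
      ((if ι = j then ip2 K (Dp k (A α ι)) else 0) - if ι = k then ip2 K (Dp j (A α ι)) else 0)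
      else 0 := ⟨_, rfl⟩
  have h1 : ip2 K (Dp k (A a j)) - ip2 K (Dp j (A a k)) = ∑ α, ∑ ι, c α ι := by
    rw [hc, Finset.sum_eq_single a]
    · simp only [if_true, Finset.sum_sub_distrib, Finset.sum_ite_eq', Finset.mem_univ]
    · intro α _ hα
      simp only [if_neg hα.symm, Finset.sum_const_zero]
    · intro h; exact absurd (Finset.mem_univ _) h
  have h2 : ∀ α ι, |(Vf L (A α ι) ι α (PhS L K j k a)).1 U - c α ι| ≤ X := by
    intro α ι
    rw [hc, hX]
    simp only
    by_cases hj : ι = j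
    · subst hj
      rw [if_pos rfl, if_neg hjk, sub_zero]
      exact V_Ph_first_loc ha0 (ha α ι) hK (fun h => hjk h.symm) α a U
    · by_cases hk : ι = k
      · subst hk
        rw [if_neg hj, if_pos rfl, zero_sub, PhS_swap, map_neg]
        have h3 := V_Ph_first_loc (L := L) (ι := ι) ha0 (ha α ι) hK (k := j)
          (fun h => hj h.symm) α a U
        have h4 : (-(Vf L (A α ι) ι α) (PhS L K ι j a)).1 U =
            -((Vf L (A α ι) ι α) (PhS L K ι j a)).1 U := rfl
        rw [h4]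
        have h5 : -((Vf L (A α ι) ι α) (PhS L K ι j a)).1 U -
            (if a = α then -ip2 K (Dp j (A α ι)) else 0) =
            -(((Vf L (A α ι) ι α) (PhS L K ι j a)).1 U -
              (if a = α then ip2 K (Dp j (A α ι)) else 0)) := by
          split_ifs <;> ring
        rw [h5, abs_neg]
        exact h3
      · rw [if_neg hj, if_neg hk, sub_zero, ite_self, sub_zero]
        exact V_Ph_none_loc ha0 (ha α ι) hK (fun h => hj h.symm) (fun h => hk h.symm) α a U
  rw [h1, ← Finset.sum_sub_distrib]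
  refine (Finset.abs_sum_le_sum_abs _ _).trans ?_
  calc ∑ α, |∑ ι, (Vf L (A α ι) ι α (PhS L K j k a)).1 U - ∑ ι, c α ι| ≤
      ∑ _α : Fin n, ∑ _ι : Fin d, X := by
        refine Finset.sum_le_sum fun α _ => ?_
        rw [← Finset.sum_sub_distrib]
        exact (Finset.abs_sum_le_sum_abs _ _).trans (Finset.sum_le_sum fun ι _ => h2 α ι)
    _ = _ := by
        simp only [Finset.sum_const, Finset.card_univ, Fintype.card_fin, nsmul_eq_mul]
        ring

/-- the derivative of the smeared curvature along a one form -/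
theorem VA_Fs_loc {A : Fin n → Fin d → St d l → ℝ} {a0 : ℝ} (ha0 : 0 ≤ a0)
    (ha : ∀ α ι x, |A α ι x| ≤ a0) {f : Fin n → Fm d l} (hf : ∀ a, Asy (f a)) (hK : BX M f)
    (U : Ed d l → G) :
    |(VA L A (FsS L f)).1 U + ∑ a, ipF (f a) (d1 (A a))| ≤
      ∑ a, ∑ j, ∑ k, 1 / 2 * (n * d * ∑ x, |f a j k x| *
        (a0 * (2 * (d * M + 1) * pd L x U + 2 * td L x U))) := by
  have h1 : VA L A (FsS L f) = ∑ a, ∑ j, ∑ k, (1 / 2 : ℝ) • VA L A (PhS L (f a j k) j k a) := by
    unfold FsS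
    rw [map_sum]
    refine Finset.sum_congr rfl fun a _ => ?_
    rw [map_sum]
    refine Finset.sum_congr rfl fun j _ => ?_
    rw [map_sum]
    exact Finset.sum_congr rfl fun k _ => Derivation.map_smul _ _ _
  have h2 : (VA L A (FsS L f)).1 U =
      ∑ a, ∑ j, ∑ k, 1 / 2 * (VA L A (PhS L (f a j k) j k a)).1 U := by
    rw [h1, ev_sum]
    refine Finset.sum_congr rfl fun a _ => ?_
    rw [ev_sum]
    refine Finset.sum_congr rfl fun j _ => ?_
    rw [ev_sum]
    rfl
  have h3 : ∀ a, ipF (f a) (d1 (A a)) = -∑ j, ∑ k, 1 / 2 *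
      (ip2 (f a j k) (Dp k (A a j)) - ip2 (f a j k) (Dp j (A a k))) := by
    intro a
    unfold ipF d1
    rw [Finset.mul_sum, ← Finset.sum_neg_distrib]
    refine Finset.sum_congr rfl fun j _ => ?_
    rw [Finset.mul_sum, ← Finset.sum_neg_distrib]
    refine Finset.sum_congr rfl fun k _ => ?_
    rw [ip2_sub_right]; ring
  have h4 : (VA L A (FsS L f)).1 U + ∑ a, ipF (f a) (d1 (A a)) =
      ∑ a, ∑ j, ∑ k, 1 / 2 * ((VA L A (PhS L (f a j k) j k a)).1 U -
        (ip2 (f a j k) (Dp k (A a j)) - ip2 (f a j k) (Dp j (A a k)))) := by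
    rw [h2, ← Finset.sum_add_distrib]
    refine Finset.sum_congr rfl fun a _ => ?_
    rw [h3, ← sub_eq_add_neg, ← Finset.sum_sub_distrib]
    refine Finset.sum_congr rfl fun j _ => ?_
    rw [← Finset.sum_sub_distrib]
    exact Finset.sum_congr rfl fun k _ => by ring
  rw [h4]
  refine (Finset.abs_sum_le_sum_abs _ _).trans (Finset.sum_le_sum fun a _ => ?_)
  refine (Finset.abs_sum_le_sum_abs _ _).trans (Finset.sum_le_sum fun j _ => ?_)
  refine (Finset.abs_sum_le_sum_abs _ _).trans (Finset.sum_le_sum fun k _ => ?_)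
  rw [abs_mul, abs_of_nonneg (show (0 : ℝ) ≤ 1 / 2 by norm_num)]
  exact mul_le_mul_of_nonneg_left (VA_PhS_loc (L := L) ha0 ha (K := f a j k) (hK a j k) j k a U)
    (by norm_num)

end

end Pool.Agent.Run7.h630.YM
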