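import Mathlib
import Pool.Agent.Run7.h630.Loc

/-!
# The characteristic function of the curvature smeared with an exact form, sharper error
-/

open MeasureTheory Matrix
open scoped Matrix.Norms.Frobenius ContDiff
open Pool.Agent.H906R3.YM Pool.Agent.W793.YM Pool.Agent.Y14

namespace Pool.Agent.Run7.h630.YM

set_option linter.unusedSectionVars false
set_option linter.unusedVariables false

noncomputable section

variable {G : Type*} [Group G] [TopologicalSpace G] [IsTopologicalGroup G] [CompactSpace G]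
  [SecondCountableTopology G] [MeasurableSpace G] [BorelSpace G] (μ : Measure G)
  [IsProbabilityMeasure μ] [μ.IsMulLeftInvariant] [μ.IsMulRightInvariant] [μ.IsInvInvariant]
  {N n : ℕ} {L : LD G N n} {d m : ℕ} [NeZero m]

/-- the constant of the second moments -/
def c2 (N d : ℕ) : ℝ := 2 * N ^ 2 * d ^ 4

lemma c2_nonneg (N d : ℕ) : 0 ≤ c2 N d := by unfold c2; positivity

lemma pd_sq (hm : 2 ≤ m) {β : ℝ} (hβ : 0 < β) (x : St d (2 * m)) :
    EX μ L β (fun U : Ed d (2 * m) → G => pd L x U ^ 2) ≤ c2 N d / β := by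
  have hc : ∀ p : Fin d × Fin d, Continuous fun U : Ed d (2 * m) → G =>
      dv L (plqT U x p.1 p.2) ^ 2 := fun p => (dv_cont.comp (plqT_cont x p.1 p.2)).pow 2
  have h1 : ∀ U : Ed d (2 * m) → G, pd L x U ^ 2 ≤
      d ^ 2 * ∑ p : Fin d × Fin d, dv L (plqT U x p.1 p.2) ^ 2 := by
    intro U
    have h2 := sq_sum_le_card_mul_sum_sq (s := (Finset.univ : Finset (Fin d × Fin d)))
      (f := fun p => dv L (plqT U x p.1 p.2))
    rw [Finset.card_univ, Fintype.card_prod, Fintype.card_fin] at h2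
    have h3 : pd L x U = ∑ p : Fin d × Fin d, dv L (plqT U x p.1 p.2) := by
      unfold pd; rw [Fintype.sum_prod_type]
    rw [h3]
    refine h2.trans (le_of_eq ?_)
    push_cast; ring
  have h2 := EX_mono μ (L := L) (β := β) (F := fun U : Ed d (2 * m) → G => pd L x U ^ 2)
    (H := fun U => d ^ 2 * ∑ p : Fin d × Fin d, dv L (plqT U x p.1 p.2) ^ 2)
    ((pd_cont x).pow 2) (continuous_const.mul (continuous_finsetSum _ fun p _ => hc p)) h1
  refine h2.trans ?_
  rw [EX_smul, EX_sum μ _ fun p _ => hc p]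
  have h3 : ∀ p : Fin d × Fin d, EX μ L β (fun U : Ed d (2 * m) → G =>
      dv L (plqT U x p.1 p.2) ^ 2) ≤ 2 * N ^ 2 / β := by
    intro p
    by_cases hp : p.1 = p.2
    · have : ∀ U : Ed d (2 * m) → G, dv L (plqT U x p.1 p.2) ^ 2 = 0 := fun U => by
        rw [hp]
        have h2 : plqT U x p.2 p.2 = 1 := by unfold plqT; group
        rw [h2, dv_one]; norm_num
      simp only [this]
      rw [EX_const]; positivity
    · exact plaq_bound μ hm hβ hp x
  calc (d : ℝ) ^ 2 * ∑ p : Fin d × Fin d, EX μ L β (fun U : Ed d (2 * m) → G =>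
      dv L (plqT U x p.1 p.2) ^ 2) ≤ d ^ 2 * ∑ _p : Fin d × Fin d, 2 * N ^ 2 / β :=
        mul_le_mul_of_nonneg_left (Finset.sum_le_sum fun p _ => h3 p) (by positivity)
    _ = _ := by
      rw [Finset.sum_const, Finset.card_univ, Fintype.card_prod, Fintype.card_fin, nsmul_eq_mul]
      unfold c2
      push_cast; ring

lemma td_sq (hm : 2 ≤ m) (hN : 1 ≤ N) {β : ℝ} (hβ : 0 < β) {M : ℕ} {x : St d (2 * m)}
    (hx : ∀ i, wv x i ≤ M) (hM : M + 1 < 2 * m) :
    EX μ L β (fun U : Ed d (2 * m) → G => td L x U ^ 2) ≤ c2 N d * M / β := by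
  have hc : ∀ k : Fin d, Continuous fun U : Ed d (2 * m) → G =>
      dv L (tlT U x k) ^ 2 := fun k => (dv_cont.comp (tlT_cont x k)).pow 2
  have h1 : ∀ U : Ed d (2 * m) → G, td L x U ^ 2 ≤
      d * ∑ k : Fin d, dv L (tlT U x k) ^ 2 := by
    intro U
    have h2 := sq_sum_le_card_mul_sum_sq (s := (Finset.univ : Finset (Fin d)))
      (f := fun k => dv L (tlT U x k))
    rw [Finset.card_univ, Fintype.card_fin] at h2
    exact h2
  have h2 := EX_mono μ (L := L) (β := β) (F := fun U : Ed d (2 * m) → G => td L x U ^ 2)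
    (H := fun U => d * ∑ k : Fin d, dv L (tlT U x k) ^ 2)
    ((td_cont x).pow 2) (continuous_const.mul (continuous_finsetSum _ fun p _ => hc p)) h1
  refine h2.trans ?_
  rw [EX_smul, EX_sum μ _ fun p _ => hc p]
  calc (d : ℝ) * ∑ k : Fin d, EX μ L β (fun U : Ed d (2 * m) → G => dv L (tlT U x k) ^ 2) ≤
      d * ∑ _k : Fin d, 2 * N ^ 2 * d ^ 2 * M / β :=
        mul_le_mul_of_nonneg_left (Finset.sum_le_sum fun k _ =>
          tl_sq μ hm hN hβ hx (by have := hx k; omega)) (by positivity)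
    _ = _ := by
      rw [Finset.sum_const, Finset.card_univ, Fintype.card_fin, nsmul_eq_mul]
      unfold c2
      ring

attribute [local fun_prop] pd_cont td_cont

lemma EX_sum_le {l : ℕ} [NeZero l] {β : ℝ} {ι : Type*} (s : Finset ι)
    {F : ι → (Ed d l → G) → ℝ} {c : ι → ℝ} (hF : ∀ i ∈ s, Continuous (F i))
    (h : ∀ i ∈ s, EX μ L β (F i) ≤ c i) :
    EX μ L β (fun U => ∑ i ∈ s, F i U) ≤ ∑ i ∈ s, c i := by
  classical
  induction s using Finset.induction_on with
  | empty =>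
    simp only [Finset.sum_empty]
    rw [EX_const]
  | insert a s ha ih =>
    simp only [Finset.sum_insert ha]
    have c1 : Continuous (F a) := hF a (Finset.mem_insert_self _ _)
    have c2 : Continuous fun U => ∑ i ∈ s, F i U :=
      continuous_finsetSum _ fun i hi => hF i (Finset.mem_insert_of_mem hi)
    rw [EX_add μ c1 c2]
    exact add_le_add (h a (Finset.mem_insert_self _ _))
      (ih (fun i hi => hF i (Finset.mem_insert_of_mem hi))
        fun i hi => h i (Finset.mem_insert_of_mem hi))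

lemma EX_mul_le {l : ℕ} [NeZero l] {β c x : ℝ} (hc : 0 ≤ c) {F : (Ed d l → G) → ℝ}
    (h : EX μ L β F ≤ x) : EX μ L β (fun U => c * F U) ≤ c * x := by
  rw [EX_smul]
  exact mul_le_mul_of_nonneg_left h hc

lemma EX_add_le {l : ℕ} [NeZero l] {β x y : ℝ} {F H : (Ed d l → G) → ℝ} (hF : Continuous F)
    (hH : Continuous H) (h : EX μ L β F ≤ x) (h' : EX μ L β H ≤ y) :
    EX μ L β (fun U => F U + H U) ≤ x + y := by
  rw [EX_add μ hF hH]
  exact add_le_add h h'

/-- first moments from second moments -/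
lemma EX_of_sq {β : ℝ} {F : (Ed d (2 * m) → G) → ℝ} (hF : Continuous F) {c s : ℝ} (hs : 0 < s)
    (h : EX μ L β (fun U => F U ^ 2) ≤ c * s ^ 2) : EX μ L β F ≤ (c + 1) * s := by
  have h1 : ∀ U, F U ≤ (1 / (2 * s)) * F U ^ 2 + s / 2 := by
    intro U
    have h2 : 0 ≤ (F U - s) ^ 2 / (2 * s) := by positivity
    have h3 : (F U - s) ^ 2 / (2 * s) = (1 / (2 * s)) * F U ^ 2 + s / 2 - F U := by
      field_simp; ring
    linarith
  have h2 := EX_mono μ (L := L) (β := β) (F := F)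
    (H := fun U => (1 / (2 * s)) * F U ^ 2 + s / 2) hF (by fun_prop) h1
  have h3 := EX_add_le μ (L := L) (β := β) (F := fun U => (1 / (2 * s)) * F U ^ 2)
    (H := fun _ => s / 2) (by fun_prop) continuous_const (EX_mul_le μ (by positivity) h)
    (EX_const μ _).le
  have h4 : 1 / (2 * s) * (c * s ^ 2) = c * s / 2 := by field_simp
  have hc : 0 ≤ c * s ^ 2 := (EX_nonneg μ fun U => sq_nonneg _).trans h
  have hc0 : 0 ≤ c := by
    by_contra hneg
    push Not at hneg
    have : c * s ^ 2 < 0 := mul_neg_of_neg_of_pos hneg (by positivity)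
    linarith
  nlinarith

lemma EX_mul_sq {β : ℝ} {F H : (Ed d (2 * m) → G) → ℝ} (hF : Continuous F) (hH : Continuous H)
    {c s t : ℝ} (hs : 0 < s) (ht : 0 < t) (h : EX μ L β (fun U => F U ^ 2) ≤ c * s ^ 2)
    (h' : EX μ L β (fun U => H U ^ 2) ≤ c * t ^ 2) :
    EX μ L β (fun U => F U * H U) ≤ c * (s * t) := by
  have h1 : ∀ U, F U * H U ≤ (t / (2 * s)) * F U ^ 2 + (s / (2 * t)) * H U ^ 2 := by
    intro U
    have h2 : 0 ≤ (t * F U - s * H U) ^ 2 / (2 * s * t) := by positivity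
    have h3 : (t * F U - s * H U) ^ 2 / (2 * s * t) =
        (t / (2 * s)) * F U ^ 2 + (s / (2 * t)) * H U ^ 2 - F U * H U := by
      field_simp; ring
    linarith
  have h2 := EX_mono μ (L := L) (β := β) (F := fun U => F U * H U)
    (H := fun U => (t / (2 * s)) * F U ^ 2 + (s / (2 * t)) * H U ^ 2) (hF.mul hH)
    (by fun_prop) h1
  have h3 := EX_add_le μ (L := L) (β := β) (F := fun U => (t / (2 * s)) * F U ^ 2)
    (H := fun U => (s / (2 * t)) * H U ^ 2) (by fun_prop) (by fun_prop)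
    (EX_mul_le μ (by positivity) h) (EX_mul_le μ (by positivity) h')
  have h5 : t / (2 * s) * (c * s ^ 2) + s / (2 * t) * (c * t ^ 2) = c * (s * t) := by
    field_simp; ring
  linarith

lemma pd_one (hm : 2 ≤ m) {b : ℝ} (hb : 0 < b) (x : St d (2 * m)) :
    EX μ L (b ^ 4) (fun U : Ed d (2 * m) → G => pd L x U) ≤ (c2 N d + 1) * (1 / b ^ 2) := by
  refine EX_of_sq μ (pd_cont x) (by positivity) ((pd_sq μ hm (by positivity) x).trans
    (le_of_eq ?_))
  field_simp

lemma td_one (hm : 2 ≤ m) (hN : 1 ≤ N) {b : ℝ} (hb : 0 < b) {M : ℕ} (hM0 : 1 ≤ M)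
    {x : St d (2 * m)} (hx : ∀ i, wv x i ≤ M) (hM : M + 1 < 2 * m) :
    EX μ L (b ^ 4) (fun U : Ed d (2 * m) → G => td L x U) ≤
      (c2 N d + 1) * (Real.sqrt M / b ^ 2) := by
  have h1 : (1 : ℝ) ≤ M := by exact_mod_cast hM0
  refine EX_of_sq μ (td_cont x) (by positivity) ((td_sq μ hm hN (by positivity) hx hM).trans
    (le_of_eq ?_))
  rw [div_pow, Real.sq_sqrt (by linarith)]
  ring

lemma tp_one (hm : 2 ≤ m) (hN : 1 ≤ N) {b : ℝ} (hb : 0 < b) {M : ℕ} (hM0 : 1 ≤ M)
    {x : St d (2 * m)} (hx : ∀ i, wv x i ≤ M) (hM : M + 1 < 2 * m) (y : St d (2 * m)) :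
    EX μ L (b ^ 4) (fun U : Ed d (2 * m) → G => td L x U * pd L y U) ≤
      c2 N d * (Real.sqrt M / b ^ 4) := by
  have h1 : (1 : ℝ) ≤ M := by exact_mod_cast hM0
  have h := EX_mul_sq μ (L := L) (β := b ^ 4) (F := fun U : Ed d (2 * m) → G => td L x U)
    (H := fun U => pd L y U) (c := c2 N d) (s := Real.sqrt M / b ^ 2) (t := 1 / b ^ 2)
    (td_cont x) (pd_cont y) (by positivity) (by positivity)
    ((td_sq μ hm hN (by positivity) hx hM).trans (le_of_eq (by
      rw [div_pow, Real.sq_sqrt (by linarith)]; ring)))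
    ((pd_sq μ hm (by positivity) y).trans (le_of_eq (by field_simp)))
  refine h.trans (le_of_eq ?_)
  ring

/-- the characteristic function of the curvature smeared with an exact form -/
theorem char_exact' (hN : 1 ≤ N) : ∃ C : ℝ, 0 < C ∧ ∀ b : ℝ, 0 < b →
    ∀ (m : ℕ) [NeZero m], 2 ≤ m → ∀ M : ℕ, 1 ≤ M → M + 1 < 2 * m →
    ∀ A : Fin n → Fin d → St d (2 * m) → ℝ, (∀ α ι, AB M (A α ι)) →
    ∀ a0 : ℝ, 0 ≤ a0 → (∀ α ι x, |A α ι x| ≤ a0) →
      |EX μ L (b ^ 4) (fun U : Ed d (2 * m) → G => Real.cos (b ^ 2 * Fs L (fun a => d1 (A a)) U)) -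
        Real.exp (-((∑ a, ipF (d1 (A a)) (d1 (A a))) / 2))| ≤
          C * (S1 A * Real.sqrt M + N1 (fun a => d1 (A a)) * a0 * M) / b ^ 2 ∧
      |EX μ L (b ^ 4) (fun U : Ed d (2 * m) → G => Real.sin (b ^ 2 * Fs L (fun a => d1 (A a)) U))| ≤
          C * (S1 A * Real.sqrt M + N1 (fun a => d1 (A a)) * a0 * M) / b ^ 2 := by
  obtain ⟨c, hc⟩ : ∃ c : ℝ, c = c2 N d := ⟨_, rfl⟩
  have hc0 : 0 ≤ c := by rw [hc]; exact c2_nonneg N d
  refine ⟨2 * d * c + n * d * ((d + 2) * (c + 1)) + 1, by positivity,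
    fun b hb m _ hm M hM0 hMl A hA a0 ha0 ha => ?_⟩
  have hS := S1_nonneg A
  have hM1 : (1 : ℝ) ≤ M := by exact_mod_cast hM0
  have hdn : (0 : ℝ) ≤ d := Nat.cast_nonneg _
  have hnn : (0 : ℝ) ≤ n := Nat.cast_nonneg _
  have hsM : 1 ≤ Real.sqrt M := by rw [Real.one_le_sqrt]; exact hM1
  have hsM' : Real.sqrt M ≤ M := by
    have h1 := Real.sq_sqrt (show (0 : ℝ) ≤ M by linarith)
    nlinarith
  have hnear : ∀ a k x, (A a k x ≠ 0 ∨ ∃ j, A a k (x + eT j) ≠ 0) → ∀ i, wv x i < M := by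
    intro a k x h
    rcases h with h | ⟨j, h⟩
    · exact fun i => (hA a k x h i).2
    · exact (ab_near (hA a k) (by omega) (Or.inr h)).1
  have hBX : BX M (fun a => d1 (A a)) := by
    intro a j k x hx
    have h1 : (A a k (x + eT j) ≠ 0 ∨ A a k x ≠ 0) ∨ (A a j (x + eT k) ≠ 0 ∨ A a j x ≠ 0) := by
      by_contra hc
      push Not at hc
      apply hx
      show A a k (x + eT j) - A a k x - (A a j (x + eT k) - A a j x) = 0
      rw [hc.1.1, hc.1.2, hc.2.1, hc.2.2]; ring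
    rcases h1 with (h1 | h1) | (h1 | h1)
    · exact hnear a k x (Or.inr ⟨j, h1⟩)
    · exact hnear a k x (Or.inl h1)
    · exact hnear a j x (Or.inr ⟨k, h1⟩)
    · exact hnear a j x (Or.inl h1)
  refine char_ode μ (A := A) hb (v := ∑ a, ipF (d1 (A a)) (d1 (A a)))
    (Finset.sum_nonneg fun a _ => ipF_self_nonneg _) ?_
  have ctp : ∀ x : St d (2 * m), Continuous fun U : Ed d (2 * m) → G => td L x U * pd L x U :=
    fun x => (td_cont x).mul (pd_cont x)
  -- the action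
  have h1 : EX μ L (b ^ 4) (fun U : Ed d (2 * m) → G => |(VA L A (aS0 L d (2 * m))).1 U +
      Fs L (fun a => d1 (A a)) U|) ≤ 2 * d * c * (S1 A * Real.sqrt M) / b ^ 4 := by
    have e0 : ∀ U : Ed d (2 * m) → G, |(VA L A (aS0 L d (2 * m))).1 U +
        Fs L (fun a => d1 (A a)) U| ≤
        ∑ α, ∑ ι, ∑ x, ∑ k, |A α ι (x + eT k)| * (2 * (td L x U * pd L x U)) := fun U =>
      VA_act_loc A U
    have e1 := EX_mono μ (L := L) (β := b ^ 4) (F := fun U : Ed d (2 * m) → G =>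
      |(VA L A (aS0 L d (2 * m))).1 U + Fs L (fun a => d1 (A a)) U|)
      (H := fun U => ∑ α, ∑ ι, ∑ x, ∑ k, |A α ι (x + eT k)| * (2 * (td L x U * pd L x U)))
      ((Sm_cont _).add (Fs_cont _)).abs (by fun_prop) e0
    refine e1.trans ?_
    have e2 : EX μ L (b ^ 4) (fun U : Ed d (2 * m) → G => ∑ α, ∑ ι, ∑ x, ∑ k,
        |A α ι (x + eT k)| * (2 * (td L x U * pd L x U))) ≤
        ∑ α, ∑ ι, ∑ x, ∑ k, |A α ι (x + eT k)| * (2 * (c * (Real.sqrt M / b ^ 4))) := by
      refine EX_sum_le μ _ (fun α _ => by fun_prop) fun α _ => ?_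
      refine EX_sum_le μ _ (fun ι _ => by fun_prop) fun ι _ => ?_
      refine EX_sum_le μ _ (fun x _ => by fun_prop) fun x _ => ?_
      refine EX_sum_le μ _ (fun k _ => by fun_prop) fun k _ => ?_
      rw [EX_smul, EX_smul]
      by_cases h0 : A α ι (x + eT k) = 0
      · rw [h0]; simp
      · refine mul_le_mul_of_nonneg_left (mul_le_mul_of_nonneg_left ?_ (by norm_num))
          (abs_nonneg _)
        rw [hc]
        exact tp_one μ hm hN hb hM0 (fun i => (hnear α ι x (Or.inr ⟨k, h0⟩) i).le) hMl x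
    refine e2.trans (le_of_eq ?_)
    have e3 : ∀ α ι, ∑ x, ∑ k : Fin d, |A α ι (x + eT k)| * (2 * (c * (Real.sqrt M / b ^ 4))) =
        (∑ x, |A α ι x|) * (2 * d * (c * (Real.sqrt M / b ^ 4))) := by
      intro α ι
      rw [Finset.sum_comm]
      have e4 : ∀ k : Fin d, ∑ x, |A α ι (x + eT k)| * (2 * (c * (Real.sqrt M / b ^ 4))) =
          (∑ x, |A α ι x|) * (2 * (c * (Real.sqrt M / b ^ 4))) := fun k => by
        rw [← Finset.sum_mul, sum_shift (eT k) (fun x => |A α ι x|)]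
      rw [Finset.sum_congr rfl fun k _ => e4 k, Finset.sum_const, Finset.card_univ,
        Fintype.card_fin, nsmul_eq_mul]
      ring
    simp only [e3]
    simp only [← Finset.sum_mul]
    unfold S1
    ring
  -- the flux
  have h2 : EX μ L (b ^ 4) (fun U : Ed d (2 * m) → G => |(VA L A (FsS L fun a => d1 (A a))).1 U +
      ∑ a, ipF (d1 (A a)) (d1 (A a))|) ≤
        n * d * ((d + 2) * (c + 1)) * (N1 (fun a => d1 (A a)) * a0 * M) / b ^ 2 := by
    obtain ⟨f, hf⟩ : ∃ f : Fin n → Fm d (2 * m), f = fun a => d1 (A a) := ⟨_, rfl⟩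
    have hK : BX M f := by rw [hf]; exact hBX
    have hN1 := N1_nonneg f
    have e0 : ∀ U : Ed d (2 * m) → G, |(VA L A (FsS L fun a => d1 (A a))).1 U +
      ∑ a, ipF (d1 (A a)) (d1 (A a))| ≤ ∑ a, ∑ j, ∑ k, 1 / 2 * (n * d * ∑ x, |f a j k x| *
        (a0 * (2 * (d * M + 1) * pd L x U + 2 * td L x U))) := fun U => by
      rw [hf]
      exact VA_Fs_loc ha0 ha (fun a => d1_asy _) hBX U
    have e1 := EX_mono μ (L := L) (β := b ^ 4) (F := fun U : Ed d (2 * m) → G =>
      |(VA L A (FsS L fun a => d1 (A a))).1 U + ∑ a, ipF (d1 (A a)) (d1 (A a))|)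
      (H := fun U => ∑ a, ∑ j, ∑ k, 1 / 2 * (n * d * ∑ x, |f a j k x| *
        (a0 * (2 * (d * M + 1) * pd L x U + 2 * td L x U))))
      ((Sm_cont _).add continuous_const).abs (by fun_prop) e0
    refine e1.trans ?_
    have hg : ∀ x : St d (2 * m), (∀ i, wv x i < M) →
        EX μ L (b ^ 4) (fun U : Ed d (2 * m) → G =>
        a0 * (2 * ((d : ℝ) * M + 1) * pd L x U + 2 * td L x U)) ≤
        a0 * (2 * (d + 2) * (c + 1) * M / b ^ 2) := by
      intro x hxM
      have g1 := pd_one μ (L := L) hm hb x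
      have g2 := td_one μ (L := L) hm hN hb hM0 (x := x) (fun i => (hxM i).le) hMl
      rw [← hc] at g1 g2
      refine EX_mul_le μ ha0 ?_
      refine (EX_add_le μ (by fun_prop) (by fun_prop) (EX_mul_le μ (by positivity) g1)
        (EX_mul_le μ (by norm_num) g2)).trans ?_
      calc 2 * ((d : ℝ) * M + 1) * ((c + 1) * (1 / b ^ 2)) +
            2 * ((c + 1) * (Real.sqrt M / b ^ 2)) ≤
          2 * ((d : ℝ) * M + M) * ((c + 1) * (1 / b ^ 2)) +
            2 * ((c + 1) * (M / b ^ 2)) := by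
            gcongr
        _ = _ := by ring
    have e3 : EX μ L (b ^ 4) (fun U : Ed d (2 * m) → G => ∑ a, ∑ j, ∑ k, 1 / 2 * (n * d *
        ∑ x, |f a j k x| * (a0 * (2 * (d * M + 1) * pd L x U + 2 * td L x U)))) ≤
        ∑ a, ∑ j, ∑ k, (1 / 2 * ((n : ℝ) * d * ∑ x, |f a j k x| *
          (a0 * (2 * (d + 2) * (c + 1) * M / b ^ 2)))) := by
      refine EX_sum_le μ _ (fun a _ => by fun_prop) fun a _ => ?_
      refine EX_sum_le μ _ (fun j _ => by fun_prop) fun j _ => ?_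
      refine EX_sum_le μ _ (fun k _ => by fun_prop) fun k _ => ?_
      refine EX_mul_le μ (by norm_num) (EX_mul_le μ (by positivity) ?_)
      refine EX_sum_le μ _ (fun x _ => by fun_prop) fun x _ => ?_
      rw [EX_smul]
      by_cases h0 : f a j k x = 0
      · rw [h0]; simp
      · exact mul_le_mul_of_nonneg_left (hg x (hK a j k x h0)) (abs_nonneg _)
    refine e3.trans (le_of_eq ?_)
    rw [← hf]
    unfold N1
    simp only [← Finset.sum_mul, ← Finset.mul_sum]
    ring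
  -- assembly
  have hN1 := N1_nonneg (fun a => d1 (A a))
  obtain ⟨X, hX⟩ : ∃ X, X = S1 A * Real.sqrt M := ⟨_, rfl⟩
  obtain ⟨Y, hY⟩ : ∃ Y, Y = N1 (fun a => d1 (A a)) * a0 * M := ⟨_, rfl⟩
  have hX0 : 0 ≤ X := by rw [hX]; positivity
  have hY0 : 0 ≤ Y := by rw [hY]; positivity
  rw [← hX] at h1 ⊢
  rw [← hY] at h2 ⊢
  have h3 := mul_le_mul_of_nonneg_left h1 (show 0 ≤ b ^ 2 by positivity)
  have h4 : b ^ 2 * (2 * d * c * X / b ^ 4) = 2 * d * c * X / b ^ 2 := by field_simp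
  rw [h4] at h3
  refine (add_le_add h3 h2).trans ?_
  rw [← add_div]
  refine div_le_div_of_nonneg_right ?_ (by positivity)
  have k1 : 0 ≤ n * d * ((d + 2) * (c + 1)) * X := by positivity
  have k2 : 0 ≤ 2 * d * c * Y := by positivity
  nlinarith

end

end Pool.Agent.Run7.h630.YM
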