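import Mathlib
import Pool.Agent.Run7.h630.Ch

/-!
# The curvature smeared with a coexact form
-/

open MeasureTheory Matrix
open scoped Matrix.Norms.Frobenius ContDiff
open Pool.Agent.H906R3.YM Pool.Agent.W793.YM Pool.Agent.Y14

namespace Pool.Agent.Run7.h630.YM

set_option linter.unusedSectionVars false
set_option linter.unusedVariables false

noncomputable section

variable {G : Type*} [Group G] [TopologicalSpace G] [IsTopologicalGroup G] [CompactSpace G]
  [SecondCountableTopology G] [MeasurableSpace G] [BorelSpace G] (μ : Measure G)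
  [IsProbabilityMeasure μ] [μ.IsMulLeftInvariant] [μ.IsMulRightInvariant] [μ.IsInvInvariant]
  {N n : ℕ} {L : LD G N n} {d : ℕ}

attribute [local fun_prop] pd_cont td_cont

lemma Fz_closed_loc {l : ℕ} [NeZero l] (U : Ed d l → G) (x : St d l) (a : Fin n)
    (j k : Fin d) :
    |Fz L U a j k x - d1 (at' L U a) j k x| ≤
      18 * (td L x U ^ 2 + td L (x + eT j) U ^ 2 + td L (x + eT k) U ^ 2) := by
  have t0 := td_nonneg (L := L) x U
  have t1 := td_nonneg (L := L) (x + eT j) U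
  have t2 := td_nonneg (L := L) (x + eT k) U
  by_cases hjk : j = k
  · subst hjk
    have h1 : Fz L U a j j x = 0 := by
      unfold Fz
      have h2 : plqT U x j j = 1 := by unfold plqT; group
      rw [h2, mul_one, mul_inv_cancel, fi_one]
    have h2 : d1 (at' L U a) j j x = 0 := by
      unfold d1; rw [sub_self]; rfl
    rw [h1, h2, sub_self, abs_zero]
    exact mul_nonneg (by norm_num) (add_nonneg (add_nonneg (sq_nonneg _) (sq_nonneg _))
      (sq_nonneg _))
  obtain ⟨s, hs⟩ : ∃ s, s = td L x U + td L (x + eT j) U + td L (x + eT k) U := ⟨_, rfl⟩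
  have p := fi_plq (L := L) a (s := s) ((le_td (L := L) x U j).trans (by linarith))
    ((le_td (L := L) (x + eT j) U k).trans (by linarith))
    ((le_td (L := L) (x + eT k) U j).trans (by linarith))
    ((le_td (L := L) x U k).trans (by linarith))
  rw [← Pc_plqT] at p
  have e : Fz L U a j k x - d1 (at' L U a) j k x =
      fi L a (Pc U x * plqT U x j k * (Pc U x)⁻¹) - (fi L a (tlT U x j) +
        fi L a (tlT U (x + eT j) k) - fi L a (tlT U (x + eT k) j) - fi L a (tlT U x k)) := by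
    unfold Fz d1 at' Dp
    simp only [Pi.sub_apply]
    ring
  rw [e]
  refine p.trans ?_
  rw [hs]
  generalize td L x U = r0 at *
  generalize td L (x + eT j) U = r1 at *
  generalize td L (x + eT k) U = r2 at *
  have : 0 ≤ (r0 - r1) ^ 2 + (r0 - r2) ^ 2 + (r1 - r2) ^ 2 := by positivity
  linarith

/-- the curvature smeared with a coexact form -/
theorem Fs_cx_loc {l : ℕ} [NeZero l] {u : Fin n → Fm d l} (hu : ∀ a, Asy (u a))
    (U : Ed d l → G) :
    |Fs L (fun a => cx (u a)) U| ≤ ∑ a, ∑ j, ∑ k, ∑ x, |cx (u a) j k x| *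
      (9 * (td L x U ^ 2 + td L (x + eT j) U ^ 2 + td L (x + eT k) U ^ 2)) := by
  unfold Fs
  have h1 : ∀ a, ipF (cx (u a)) (Fz L U a) = ∑ j, ∑ k, ∑ x, 1 / 2 * (cx (u a) j k x *
      (Fz L U a j k x - d1 (at' L U a) j k x)) := by
    intro a
    have h2 := cx_orth (hu a) (at' L U a)
    have h3 : ipF (cx (u a)) (Fz L U a) =
        ipF (cx (u a)) (Fz L U a) - ipF (cx (u a)) (d1 (at' L U a)) := by rw [h2, sub_zero]
    rw [h3]
    unfold ipF ip2
    rw [← mul_sub, ← Finset.sum_sub_distrib, Finset.mul_sum]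
    refine Finset.sum_congr rfl fun j _ => ?_
    rw [← Finset.sum_sub_distrib, Finset.mul_sum]
    refine Finset.sum_congr rfl fun k _ => ?_
    rw [← Finset.sum_sub_distrib, Finset.mul_sum]
    exact Finset.sum_congr rfl fun x _ => by ring
  rw [Finset.sum_congr rfl fun a _ => h1 a]
  refine (Finset.abs_sum_le_sum_abs _ _).trans (Finset.sum_le_sum fun a _ => ?_)
  refine (Finset.abs_sum_le_sum_abs _ _).trans (Finset.sum_le_sum fun j _ => ?_)
  refine (Finset.abs_sum_le_sum_abs _ _).trans (Finset.sum_le_sum fun k _ => ?_)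
  refine (Finset.abs_sum_le_sum_abs _ _).trans (Finset.sum_le_sum fun x _ => ?_)
  rw [abs_mul, abs_mul, abs_of_nonneg (show (0 : ℝ) ≤ 1 / 2 by norm_num)]
  have h5 := mul_le_mul_of_nonneg_left (Fz_closed_loc (L := L) U x a j k)
    (abs_nonneg (cx (u a) j k x))
  linarith

theorem Fs_cx_abs (hN : 1 ≤ N) : ∃ C : ℝ, 0 < C ∧ ∀ b : ℝ, 0 < b →
    ∀ (m : ℕ) [NeZero m], 2 ≤ m → ∀ M : ℕ, 1 ≤ M → M + 1 < 2 * m →
    ∀ u : Fin n → Fm d (2 * m), (∀ a, Asy (u a)) →
    (∀ a j k x, cx (u a) j k x ≠ 0 → ∀ i, wv x i + 1 ≤ M) →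
      EX μ L (b ^ 4) (fun U : Ed d (2 * m) → G => |b ^ 2 * Fs L (fun a => cx (u a)) U|) ≤
        C * (N1 (fun a => cx (u a)) * M) / b ^ 2 := by
  have hc := c2_nonneg N d
  refine ⟨27 * c2 N d + 1, by positivity, fun b hb m _ hm M hM0 hMl u hu hs => ?_⟩
  have hb2 : (0 : ℝ) < b ^ 2 := by positivity
  have e0 : ∀ U : Ed d (2 * m) → G, |b ^ 2 * Fs L (fun a => cx (u a)) U| ≤
      b ^ 2 * ∑ a, ∑ j, ∑ k, ∑ x, |cx (u a) j k x| *
      (9 * (td L x U ^ 2 + td L (x + eT j) U ^ 2 + td L (x + eT k) U ^ 2)) := by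
    intro U
    rw [abs_mul, abs_of_pos hb2]
    exact mul_le_mul_of_nonneg_left (Fs_cx_loc hu U) hb2.le
  have e1 := EX_mono μ (L := L) (β := b ^ 4) (F := fun U : Ed d (2 * m) → G =>
    |b ^ 2 * Fs L (fun a => cx (u a)) U|) (H := fun U => b ^ 2 * ∑ a, ∑ j, ∑ k, ∑ x,
      |cx (u a) j k x| * (9 * (td L x U ^ 2 + td L (x + eT j) U ^ 2 + td L (x + eT k) U ^ 2)))
    (continuous_const.mul (Fs_cont _)).abs (by fun_prop) e0
  refine e1.trans ?_
  have hN1 := N1_nonneg (fun a => cx (u a))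
  have h9 : ∀ x : St d (2 * m), ∀ j k : Fin d, (∀ i, wv x i + 1 ≤ M) →
      EX μ L (b ^ 4) (fun U : Ed d (2 * m) → G =>
        9 * (td L x U ^ 2 + td L (x + eT j) U ^ 2 + td L (x + eT k) U ^ 2)) ≤
        9 * (c2 N d * M / b ^ 4 + c2 N d * M / b ^ 4 + c2 N d * M / b ^ 4) := by
    intro x j k hx
    have hadd : ∀ i i' : Fin d, wv (x + eT i) i' ≤ M := fun i i' => by
      rw [wv_add (by have := hx i; omega)]
      by_cases h : i' = i
      · subst h; simp only [Pi.add_apply, es_same]; exact hx _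
      · simp only [Pi.add_apply, es_ne h, add_zero]; have := hx i'; omega
    refine EX_mul_le μ (by norm_num) ?_
    refine EX_add_le μ (by fun_prop) (by fun_prop) ?_ ?_
    · refine EX_add_le μ (by fun_prop) (by fun_prop) ?_ ?_
      · exact td_sq μ hm hN (by positivity) (fun i => by have := hx i; omega) hMl
      · exact td_sq μ hm hN (by positivity) (hadd j) hMl
    · exact td_sq μ hm hN (by positivity) (hadd k) hMl
  have e2 : EX μ L (b ^ 4) (fun U : Ed d (2 * m) → G => b ^ 2 * ∑ a, ∑ j, ∑ k, ∑ x,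
      |cx (u a) j k x| *
        (9 * (td L x U ^ 2 + td L (x + eT j) U ^ 2 + td L (x + eT k) U ^ 2))) ≤
      b ^ 2 * ∑ a, ∑ j, ∑ k, ∑ x, |cx (u a) j k x| *
        (9 * (c2 N d * M / b ^ 4 + c2 N d * M / b ^ 4 + c2 N d * M / b ^ 4)) := by
    refine EX_mul_le μ hb2.le ?_
    refine EX_sum_le μ _ (fun a _ => by fun_prop) fun a _ => ?_
    refine EX_sum_le μ _ (fun j _ => by fun_prop) fun j _ => ?_
    refine EX_sum_le μ _ (fun k _ => by fun_prop) fun k _ => ?_
    refine EX_sum_le μ _ (fun x _ => by fun_prop) fun x _ => ?_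
    rw [EX_smul]
    by_cases h0 : cx (u a) j k x = 0
    · rw [h0]; simp
    · exact mul_le_mul_of_nonneg_left (h9 x j k (hs a j k x h0)) (abs_nonneg _)
  refine e2.trans ?_
  have e3 : b ^ 2 * ∑ a, ∑ j, ∑ k, ∑ x, |cx (u a) j k x| *
        (9 * (c2 N d * M / b ^ 4 + c2 N d * M / b ^ 4 + c2 N d * M / b ^ 4)) =
      27 * c2 N d * (N1 (fun a => cx (u a)) * M) / b ^ 2 := by
    simp only [← Finset.sum_mul]
    unfold N1
    field_simp
    ring
  rw [e3]
  refine div_le_div_of_nonneg_right ?_ (by positivity)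
  have : 0 ≤ N1 (fun a => cx (u a)) * M := by positivity
  linarith

end

end Pool.Agent.Run7.h630.YM
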