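import Mathlib
import Pool.Agent.W793.YM.Lat2

/-!
# Doubling of the Haar measure and sharp exponential moments of the plaquettes
-/

open MeasureTheory Matrix
open scoped Matrix.Norms.Frobenius ContDiff ENNReal
open Pool.Agent.H906R3.YM Pool.Agent.W793.YM

namespace Pool.Agent.Run7.h630.YM

set_option linter.unusedSectionVars false
set_option linter.unusedVariables false

noncomputable section

variable {G : Type*} [Group G] [TopologicalSpace G] [IsTopologicalGroup G] [CompactSpace G]
  [SecondCountableTopology G] [MeasurableSpace G] [BorelSpace G] (μ : Measure G)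
  [IsProbabilityMeasure μ] [μ.IsMulLeftInvariant] [μ.IsMulRightInvariant] [μ.IsInvInvariant]
  {N n : ℕ} {L : LD G N n}

/-- the doubling constant -/
def DD (N : ℕ) : ℕ := 5 ^ Module.finrank ℝ (Mat N)

lemma norm_rho_sub (g h : G) : ‖L.rho g - L.rho h‖ = dv L (h⁻¹ * g) := by
  have h1 : L.rho g - L.rho h = L.rho h * (L.rho (h⁻¹ * g) - 1) := by
    rw [mul_sub, ← map_mul, mul_inv_cancel_left, mul_one]
  rw [h1, norm_lmul]
  rfl

/-- doubling -/
theorem doubling {r : ℝ} (hr : 0 < r) : μ {g | dv L g < 2 * r} ≤ DD N * μ {g | dv L g < r} := by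
  classical
  -- separated sets
  have hcard : ∀ s : Finset G, (∀ g ∈ s, dv L g < 2 * r) →
      (∀ g ∈ s, ∀ h ∈ s, g ≠ h → r ≤ dv L (h⁻¹ * g)) → s.card ≤ DD N := by
    intro s h1 h2
    have hinj : Set.InjOn (fun g : G => r⁻¹ • (L.rho g - 1)) s := by
      intro g hg h hh he
      by_contra hne
      have h3 := h2 g hg h hh hne
      have h4 : L.rho g - 1 = L.rho h - 1 := by
        have := congrArg (fun v => r • v) he
        simpa [smul_smul, hr.ne'] using this
      have h5 : L.rho g = L.rho h := sub_left_inj.1 h4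
      rw [← norm_rho_sub, h5, sub_self, norm_zero] at h3
      linarith
    rw [← Finset.card_image_of_injOn hinj]
    refine Besicovitch.card_le_of_separated _ ?_ ?_
    · intro c hc
      obtain ⟨g, hg, rfl⟩ := Finset.mem_image.1 hc
      rw [norm_smul, norm_inv, Real.norm_of_nonneg hr.le]
      have : ‖L.rho g - 1‖ < 2 * r := h1 g hg
      rw [inv_mul_le_iff₀ hr]
      linarith
    · intro c hc e he hce
      obtain ⟨g, hg, rfl⟩ := Finset.mem_image.1 hc
      obtain ⟨h, hh, rfl⟩ := Finset.mem_image.1 he
      have hne : g ≠ h := fun h => hce (by rw [h])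
      rw [← smul_sub, norm_smul, norm_inv, Real.norm_of_nonneg hr.le, sub_sub_sub_cancel_right,
        norm_rho_sub]
      rw [le_inv_mul_iff₀ hr, mul_one]
      exact h2 g hg h hh hne
  -- a maximal separated set
  obtain ⟨P, hP⟩ : ∃ P : ℕ → Prop, P = fun k => ∃ s : Finset G, s.card = k ∧
    (∀ g ∈ s, dv L g < 2 * r) ∧ (∀ g ∈ s, ∀ h ∈ s, g ≠ h → r ≤ dv L (h⁻¹ * g)) := ⟨_, rfl⟩
  have hP0 : P 0 := by rw [hP]; exact ⟨∅, rfl, by simp, by simp⟩
  have hPb : ∀ k, P k → k ≤ DD N := by
    intro k hk
    rw [hP] at hk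
    obtain ⟨s, rfl, h1, h2⟩ := hk
    exact hcard s h1 h2
  obtain ⟨k, hk1, hk2⟩ : ∃ k, P k ∧ ¬P (k + 1) := by
    by_contra hc
    push Not at hc
    have : ∀ k, P k := fun k => by
      induction k with
      | zero => exact hP0
      | succ k ih => exact hc k ih
    have := hPb _ (this (DD N + 1))
    omega
  have hkb := hPb k hk1
  rw [hP] at hk1 hk2
  obtain ⟨s, hs, h1, h2⟩ := hk1
  have hcov : {g | dv L g < 2 * r} ⊆ ⋃ g ∈ s, (fun h => g⁻¹ * h) ⁻¹' {g | dv L g < r} := by
    intro g hg
    by_contra hc
    simp only [Set.mem_iUnion, Set.mem_preimage, Set.mem_ofPred_eq, exists_prop, not_exists,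
      not_and, not_lt] at hc
    have hgs : g ∉ s := fun h => by
      have := hc g h
      rw [inv_mul_cancel, dv_one] at this
      linarith
    refine hk2 ⟨insert g s, by rw [Finset.card_insert_of_notMem hgs, hs], ?_, ?_⟩
    · intro h hh
      rcases Finset.mem_insert.1 hh with rfl | hh
      · exact hg
      · exact h1 h hh
    · intro a ha b hb hab
      rcases Finset.mem_insert.1 ha with ha | ha
      · rcases Finset.mem_insert.1 hb with hb | hb
        · exact absurd (ha.trans hb.symm) hab
        · rw [ha]; exact hc b hb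
      · rcases Finset.mem_insert.1 hb with hb | hb
        · have := hc a ha
          rw [← dv_inv, _root_.mul_inv_rev, inv_inv] at this
          rw [hb]; exact this
        · exact h2 a ha b hb hab
  refine (measure_mono hcov).trans ?_
  refine (measure_biUnion_finset_le _ _).trans ?_
  simp only [measure_preimage_mul]
  rw [Finset.sum_const, hs, nsmul_eq_mul]
  gcongr

/-- layer cake -/
lemma lint_exp {β : ℝ} : ∫⁻ g, ENNReal.ofReal (Real.exp (-(β * we L g))) ∂μ =
    ∫⁻ t : ℝ, ENNReal.ofReal (Real.exp (-t)) * μ {g | β * we L g < t} := by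
  have h1 : ∀ s : ℝ, ENNReal.ofReal (Real.exp (-s)) =
      ∫⁻ t : ℝ, (Set.Ioi s).indicator (fun t => ENNReal.ofReal (Real.exp (-t))) t := by
    intro s
    rw [lintegral_indicator measurableSet_Ioi, ← integral_exp_neg_Ioi s,
      ofReal_integral_eq_lintegral_ofReal]
    · exact integrableOn_exp_neg_Ioi s
    · exact Filter.Eventually.of_forall fun t => (Real.exp_pos _).le
  have hwe : Measurable fun g : G => β * we L g := (continuous_const.mul we_cont).measurable
  rw [lintegral_congr fun g => h1 (β * we L g), lintegral_lintegral_swap]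
  · refine lintegral_congr fun t => ?_
    have h2 : ∀ g : G, (Set.Ioi (β * we L g)).indicator
        (fun t => ENNReal.ofReal (Real.exp (-t))) t =
        {g : G | β * we L g < t}.indicator (fun _ => ENNReal.ofReal (Real.exp (-t))) g := by
      intro g
      by_cases h : β * we L g < t
      · rw [Set.indicator_of_mem (by exact h), Set.indicator_of_mem (by exact h)]
      · rw [Set.indicator_of_notMem (by exact h), Set.indicator_of_notMem (by exact h)]
    simp only [h2]
    rw [lintegral_indicator (measurableSet_lt hwe measurable_const), lintegral_const,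
      Measure.restrict_apply_univ]
  · have hset : MeasurableSet {p : G × ℝ | β * we L p.1 < p.2} :=
      measurableSet_lt (hwe.comp measurable_fst) measurable_snd
    have h3 : (Function.uncurry fun (g : G) (t : ℝ) => (Set.Ioi (β * we L g)).indicator
        (fun t => ENNReal.ofReal (Real.exp (-t))) t) =
        {p : G × ℝ | β * we L p.1 < p.2}.indicator
          (fun p => ENNReal.ofReal (Real.exp (-p.2))) := by
      funext p
      show (Set.Ioi (β * we L p.1)).indicator
        (fun t => ENNReal.ofReal (Real.exp (-t))) p.2 = _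
      by_cases h : β * we L p.1 < p.2
      · rw [Set.indicator_of_mem (show p.2 ∈ Set.Ioi (β * we L p.1) from h),
          Set.indicator_of_mem (show p ∈ {p : G × ℝ | β * we L p.1 < p.2} from h)]
      · rw [Set.indicator_of_notMem (show p.2 ∉ Set.Ioi (β * we L p.1) from h),
          Set.indicator_of_notMem (show p ∉ {p : G × ℝ | β * we L p.1 < p.2} from h)]
    rw [h3]
    refine (Measurable.indicator ?_ hset).aemeasurable
    exact (Real.continuous_exp.measurable.comp measurable_snd.neg).ennreal_ofReal

lemma zz_eq (β : ℝ) : ENNReal.ofReal (zz μ L β) =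
    ∫⁻ g, ENNReal.ofReal (Real.exp (-(β * we L g))) ∂μ := by
  unfold zz
  rw [ofReal_integral_eq_lintegral_ofReal]
  · exact (Real.continuous_exp.comp (continuous_const.mul we_cont).neg).integrable_of_hasCompactSupport
      (HasCompactSupport.of_compactSpace _)
  · exact Filter.Eventually.of_forall fun t => (Real.exp_pos _).le

theorem zz_dbl {β : ℝ} (hβ : 0 < β) : zz μ L (β / 4) ≤ DD N * zz μ L β := by
  have hz : ∀ β, 0 ≤ zz μ L β := fun β => integral_nonneg fun g => (Real.exp_pos _).le
  have h1 : ENNReal.ofReal (zz μ L (β / 4)) ≤ ENNReal.ofReal (DD N * zz μ L β) := by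
    rw [ENNReal.ofReal_mul (by positivity), ENNReal.ofReal_natCast, zz_eq, zz_eq, lint_exp,
      lint_exp, ← lintegral_const_mul']
    · refine lintegral_mono fun t => ?_
      rw [← mul_assoc, mul_comm (DD N : ℝ≥0∞), mul_assoc]
      refine mul_le_mul_right ?_ _
      rcases le_or_gt t 0 with ht | ht
      · have : {g : G | β / 4 * we L g < t} = ∅ := by
          ext g
          simp only [Set.mem_ofPred_eq, Set.mem_empty_iff_false, iff_false, not_lt]
          have := we_nonneg (L := L) g
          exact ht.trans (by positivity)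
        rw [this, measure_empty]
        exact zero_le
      · obtain ⟨r, hr⟩ : ∃ r : ℝ, r = Real.sqrt (2 * t / β) := ⟨_, rfl⟩
        have hr0 : 0 < r := by rw [hr]; positivity
        have hr2 : r ^ 2 = 2 * t / β := by rw [hr]; exact Real.sq_sqrt (by positivity)
        have e1 : {g : G | β / 4 * we L g < t} = {g | dv L g < 2 * r} := by
          ext g
          simp only [Set.mem_ofPred_eq]
          have h2 := dv_sq (L := L) g
          have h3 := dv_nonneg (L := L) g
          rw [← abs_of_nonneg h3, ← abs_of_pos (show 0 < 2 * r by positivity), ← sq_lt_sq, h2,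
            mul_pow, hr2]
          constructor
          · intro h
            have : β * we L g < 4 * t := by linarith
            rw [show (2 : ℝ) ^ 2 * (2 * t / β) = 2 * (4 * t / β) by ring]
            have := (lt_div_iff₀' hβ).2 this
            linarith
          · intro h
            have h4 : we L g < 4 * t / β := by
              rw [show (2 : ℝ) ^ 2 * (2 * t / β) = 2 * (4 * t / β) by ring] at h
              linarith
            have := (lt_div_iff₀' hβ).1 h4
            linarith
        have e2 : {g : G | β * we L g < t} = {g | dv L g < r} := by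
          ext g
          simp only [Set.mem_ofPred_eq]
          have h2 := dv_sq (L := L) g
          have h3 := dv_nonneg (L := L) g
          rw [← abs_of_nonneg h3, ← abs_of_pos hr0, ← sq_lt_sq, h2, hr2]
          constructor
          · intro h
            have := (lt_div_iff₀' hβ).2 h
            rw [show 2 * t / β = 2 * (t / β) by ring]
            linarith
          · intro h
            have h4 : we L g < t / β := by
              rw [show 2 * t / β = 2 * (t / β) by ring] at h
              linarith
            exact (lt_div_iff₀' hβ).1 h4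
        rw [e1, e2]
        exact doubling μ hr0
    · exact ENNReal.natCast_ne_top _
  exact (ENNReal.ofReal_le_ofReal_iff (mul_nonneg (Nat.cast_nonneg _) (hz _))).1 h1


lemma zz_pos (β : ℝ) : 0 < zz μ L β := by
  unfold zz
  refine integral_exp_pos ?_
  exact cont_integrable (Real.continuous_exp.comp (continuous_const.mul we_cont).neg)

lemma zz_anti {β β' : ℝ} (h : β ≤ β') : zz μ L β' ≤ zz μ L β := by
  unfold zz
  refine integral_mono
    (cont_integrable (Real.continuous_exp.comp (continuous_const.mul we_cont).neg))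
    (cont_integrable (Real.continuous_exp.comp (continuous_const.mul we_cont).neg)) fun g => ?_
  simp only
  rw [Real.exp_le_exp, neg_le_neg_iff]
  exact mul_le_mul_of_nonneg_right h (we_nonneg _)

lemma zz_ratio {β : ℝ} (hβ : 0 < β) : zz μ L (β / 4) ≤ DD N ^ 2 * zz μ L (3 * β / 2) := by
  have h1 := zz_dbl μ (L := L) hβ
  have h2 := zz_dbl μ (L := L) (show 0 < 4 * β by positivity)
  have h3 := zz_anti μ (L := L) (show 3 * β / 2 ≤ 4 * β by linarith)
  rw [mul_div_cancel_left₀ β (by norm_num)] at h2
  have hD : (0 : ℝ) ≤ DD N := Nat.cast_nonneg _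
  calc zz μ L (β / 4) ≤ DD N * zz μ L β := h1
    _ ≤ DD N * (DD N * zz μ L (4 * β)) := mul_le_mul_of_nonneg_left h2 hD
    _ ≤ DD N * (DD N * zz μ L (3 * β / 2)) :=
        mul_le_mul_of_nonneg_left (mul_le_mul_of_nonneg_left h3 hD) hD
    _ = _ := by ring

lemma we_half (W g : G) : we L (W⁻¹ * g) ≤ 2 * we L W + 2 * we L g := by
  have h1 := dv_sq (L := L) (W⁻¹ * g)
  have h2 := dv_sq (L := L) W
  have h3 := dv_sq (L := L) g
  have h4 := dv_mul (L := L) W⁻¹ g
  rw [dv_inv] at h4
  have h5 := dv_nonneg (L := L) (W⁻¹ * g)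
  have h6 := dv_nonneg (L := L) W
  have h7 := dv_nonneg (L := L) g
  nlinarith [sq_nonneg (dv L W - dv L g)]

section refl

variable {E : Type*} [Fintype E] [DecidableEq E] (T : Refl E)

theorem exp_half {β : ℝ} (hβ : 0 < β) {w : (E → G) → ℝ} (hw : Continuous w) (hd : Dep T.R w)
    (hw0 : ∀ U, 0 ≤ w U) {e : E} (he : e ∈ T.J) :
    T.Ew μ L β w (fun U => Real.exp (β / 2 * we L (T.W U e))) ≤
      DD N ^ 2 * T.Ew μ L β w (fun _ => 1) := by
  have hWc := cont_W (G := G) T e
  have h1 : ∀ g, T.Ew μ L β w (fun U => Real.exp (β * ((trace (L.rho (T.W U e * g))).re -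
      (trace (L.rho (T.W U e))).re))) ≤ T.Ew μ L β w (fun _ => 1) :=
    T.dom μ hβ.le hw hd he
  have hhc : Continuous fun g : G => Real.exp (-(β / 4 * we L g)) :=
    Real.continuous_exp.comp (continuous_const.mul we_cont).neg
  have hcont : Continuous fun z : G × (E → G) => Real.exp (-(β / 4 * we L z.1)) *
      (Real.exp (β * ((trace (L.rho (T.W z.2 e * z.1))).re -
      (trace (L.rho (T.W z.2 e))).re)) * (w z.2 * w (T.tU z.2) * Real.exp (β * T.ker L z.2))) := by
    refine (hhc.comp continuous_fst).mul (Continuous.mul ?_ ((T.wt_cont hw).comp continuous_snd))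
    refine Real.continuous_exp.comp (continuous_const.mul (Continuous.sub ?_ ?_))
    · exact cont_retr.comp ((hWc.comp continuous_snd).mul continuous_fst)
    · exact cont_retr.comp (hWc.comp continuous_snd)
  have hint : Integrable (fun z : G × (E → G) => Real.exp (-(β / 4 * we L z.1)) *
      (Real.exp (β * ((trace (L.rho (T.W z.2 e * z.1))).re -
      (trace (L.rho (T.W z.2 e))).re)) * (w z.2 * w (T.tU z.2) * Real.exp (β * T.ker L z.2))))
      (μ.prod (ME μ E)) := cont_integrable hcont
  have h2 : ∫ g, Real.exp (-(β / 4 * we L g)) * T.Ew μ L β w (fun U =>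
      Real.exp (β * ((trace (L.rho (T.W U e * g))).re - (trace (L.rho (T.W U e))).re))) ∂μ ≤
      zz μ L (β / 4) * T.Ew μ L β w (fun _ => 1) := by
    unfold zz
    rw [← integral_mul_const]
    refine integral_mono ?_ ((cont_integrable hhc).mul_const _) fun g =>
      mul_le_mul_of_nonneg_left (h1 g) (Real.exp_pos _).le
    have h3 := hint.integral_prod_left
    simp only [integral_const_mul] at h3
    exact h3
  have h3 : ∫ g, Real.exp (-(β / 4 * we L g)) * T.Ew μ L β w (fun U =>
      Real.exp (β * ((trace (L.rho (T.W U e * g))).re - (trace (L.rho (T.W U e))).re))) ∂μ =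
      ∫ U, (∫ g, Real.exp (-(β / 4 * we L g)) *
        (Real.exp (β * ((trace (L.rho (T.W U e * g))).re -
          (trace (L.rho (T.W U e))).re)) *
          (w U * w (T.tU U) * Real.exp (β * T.ker L U))) ∂μ) ∂(ME μ E) := by
    rw [← integral_integral_swap hint]
    unfold Refl.Ew
    simp only [integral_const_mul]
  rw [h3] at h2
  have h4 : zz μ L (3 * β / 2) * T.Ew μ L β w (fun U => Real.exp (β / 2 * we L (T.W U e))) ≤
      ∫ U, (∫ g, Real.exp (-(β / 4 * we L g)) *
        (Real.exp (β * ((trace (L.rho (T.W U e * g))).re -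
          (trace (L.rho (T.W U e))).re)) *
          (w U * w (T.tU U) * Real.exp (β * T.ker L U))) ∂μ) ∂(ME μ E) := by
    unfold Refl.Ew
    rw [← integral_const_mul]
    have hc1 : Continuous fun U : E → G => zz μ L (3 * β / 2) *
        (Real.exp (β / 2 * we L (T.W U e)) * (w U * w (T.tU U) * Real.exp (β * T.ker L U))) :=
      continuous_const.mul ((Real.continuous_exp.comp (continuous_const.mul
        (we_cont.comp hWc))).mul (T.wt_cont hw))
    refine integral_mono (cont_integrable hc1) hint.integral_prod_right fun U => ?_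
    simp only
    obtain ⟨W, hW⟩ : ∃ W, W = T.W U e := ⟨_, rfl⟩
    obtain ⟨c, hc⟩ : ∃ c, c = w U * w (T.tU U) * Real.exp (β * T.ker L U) := ⟨_, rfl⟩
    have hc0 : 0 ≤ c := by
      rw [hc]; exact mul_nonneg (mul_nonneg (hw0 _) (hw0 _)) (Real.exp_pos _).le
    rw [← hW, ← hc]
    rw [← integral_mul_left_eq_self (μ := μ) (fun g => Real.exp (-(β / 4 * we L g)) *
        (Real.exp (β * ((trace (L.rho (W * g))).re - (trace (L.rho W)).re)) * c)) W⁻¹]
    unfold zz
    rw [← integral_mul_const]
    have hc2 : Continuous fun g : G => Real.exp (-(β / 4 * we L (W⁻¹ * g))) *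
        (Real.exp (β * ((trace (L.rho (W * (W⁻¹ * g)))).re - (trace (L.rho W)).re)) * c) := by
      refine (hhc.comp (continuous_const.mul continuous_id)).mul ((Real.continuous_exp.comp
        (continuous_const.mul ((cont_retr.comp (continuous_const.mul
          (continuous_const.mul continuous_id))).sub continuous_const))).mul continuous_const)
    refine integral_mono ?_ (cont_integrable hc2) fun g => ?_
    · exact (cont_integrable (Real.continuous_exp.comp
        (continuous_const.mul we_cont).neg)).mul_const _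
    · simp only
      rw [mul_inv_cancel_left]
      have h5 : (trace (L.rho g)).re - (trace (L.rho W)).re = we L W - we L g := by
        rw [we_tr, we_tr]; ring
      rw [h5, ← mul_assoc, ← mul_assoc, ← Real.exp_add, ← Real.exp_add]
      refine mul_le_mul_of_nonneg_right ?_ hc0
      rw [Real.exp_le_exp]
      have h6 := we_half (L := L) W g
      nlinarith
  have h5 := zz_ratio μ (L := L) hβ
  have hE : 0 ≤ T.Ew μ L β w (fun _ => 1) := by
    unfold Refl.Ew
    refine integral_nonneg fun U => ?_
    exact mul_nonneg zero_le_one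
      (mul_nonneg (mul_nonneg (hw0 _) (hw0 _)) (Real.exp_pos _).le)
  have h6 := zz_pos μ (L := L) (3 * β / 2)
  have h7 := (h4.trans h2).trans (mul_le_mul_of_nonneg_right h5 hE)
  have h8 : zz μ L (3 * β / 2) * T.Ew μ L β w (fun U => Real.exp (β / 2 * we L (T.W U e))) ≤
      zz μ L (3 * β / 2) * (DD N ^ 2 * T.Ew μ L β w (fun _ => 1)) := by
    refine h7.trans (le_of_eq ?_)
    ring
  exact le_of_mul_le_mul_left h8 h6

end refl

/-- the exponential moment of a plaquette -/
theorem plaq_exp {d m : ℕ} [NeZero m] (hm : 2 ≤ m) {β : ℝ} (hβ : 0 < β) {i j : Fin d}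
    (hij : i ≠ j) (x : Fin d → ZMod (2 * m)) :
    EX μ L β (fun U : Ed d (2 * m) → G => Real.exp (β / 2 * we L (plqT U x i j))) ≤
      DD N ^ 2 := by
  have h0 : EX μ L β (fun U : Ed d (2 * m) → G => Real.exp (β / 2 * we L (plqT U x i j))) =
      EX μ L β (fun U : Ed d (2 * m) → G => Real.exp (β / 2 * we L (plqT U 0 i j))) := by
    rw [← EX_tr μ x (fun U : Ed d (2 * m) → G => Real.exp (β / 2 * we L (plqT U 0 i j)))]
    simp only [plqT_tr, zero_add]
  rw [h0]
  obtain ⟨c, hc, hred⟩ := Zt_red μ (L := L) hm j β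
  have hcont : Continuous fun U : Ed d (2 * m) → G =>
      Real.exp (β / 2 * we L (plqT U 0 i j)) :=
    Real.continuous_exp.comp (continuous_const.mul (Sm_cont ⟨_, we_mem (L := L) 0 i j⟩))
  have hgi : GI fun U : Ed d (2 * m) → G => Real.exp (β / 2 * we L (plqT U 0 i j)) :=
    fun γ U => by
      show Real.exp (β / 2 * we L (plqT (gt γ U) 0 i j)) = _
      rw [plqT_gt, we_conj]
  have hgi1 : GI fun _ : Ed d (2 * m) → G => (1 : ℝ) := fun γ U => rfl
  unfold EX
  rw [div_le_iff₀ (Zt_pos μ β), hred _ hcont hgi, hred _ continuous_const hgi1]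
  have hJ : ((0 + eT j : Fin d → ZMod (2 * m)), i) ∈ (TR hm j).J := by
    show _ ∈ Finset.univ.filter _
    rw [Finset.mem_filter]
    refine ⟨Finset.mem_univ _, hij, Or.inl ?_⟩
    simp only [add_same, Pi.zero_apply, zero_add]
  have h1 := exp_half μ (L := L) (TR hm j) hβ (w := (wR L β m j).1) (Sm_cont _) (wR_dep hm _ _)
    (wR_nonneg _ _) hJ
  have h2 : (fun U : Ed d (2 * m) → G => Real.exp (β / 2 * we L (plqT (fix j U) 0 i j))) =
      fun U => Real.exp (β / 2 *
        we L ((TR hm j).W U ((0 + eT j : Fin d → ZMod (2 * m)), i))) := by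
    funext U
    congr 2
    have h3 : plqT (fix j U) 0 i j =
        ((TR hm j).W U ((0 + eT j : Fin d → ZMod (2 * m)), i))⁻¹ := by
      have h5 : rB j (0 : Fin d → ZMod (2 * m)) = 0 := by
        unfold rB
        simp
      have h4 : (TR hm j).W U ((0 + eT j : Fin d → ZMod (2 * m)), i) =
          U (0 + eT j, i) * (U (rA j (0 + eT j), i))⁻¹ := by
        unfold Refl.W TR
        simp [hij]
      rw [h4, rA_eq', h5]
      unfold plqT
      rw [fix_i0' U 0 (Or.inl rfl), fix_i0' U _ (Or.inl (add_ne 0 hij)),
        fix_ne _ _ hij, fix_ne _ _ hij]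
      group
    rw [h3, we_inv]
  rw [h2]
  calc c * (TR hm j).Ew μ L β (wR L β m j).1
        (fun U => Real.exp (β / 2 *
          we L ((TR hm j).W U ((0 + eT j : Fin d → ZMod (2 * m)), i)))) ≤
      c * (DD N ^ 2 * (TR hm j).Ew μ L β (wR L β m j).1 (fun _ => 1)) :=
        mul_le_mul_of_nonneg_left h1 hc.le
    _ = _ := by ring

/-- the fourth moment of a plaquette -/
theorem plaq_four {d m : ℕ} [NeZero m] (hm : 2 ≤ m) {β : ℝ} (hβ : 0 < β) {i j : Fin d}
    (hij : i ≠ j) (x : Fin d → ZMod (2 * m)) :
    EX μ L β (fun U : Ed d (2 * m) → G => dv L (plqT U x i j) ^ 4) ≤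
      32 * DD N ^ 2 / β ^ 2 := by
  have hwc : Continuous fun U : Ed d (2 * m) → G => we L (plqT U x i j) :=
    Sm_cont ⟨_, we_mem (L := L) x i j⟩
  have h1 : ∀ U : Ed d (2 * m) → G, dv L (plqT U x i j) ^ 4 ≤
      32 / β ^ 2 * Real.exp (β / 2 * we L (plqT U x i j)) := by
    intro U
    have h2 : dv L (plqT U x i j) ^ 4 = 4 * we L (plqT U x i j) ^ 2 := by
      have := dv_sq (L := L) (plqT U x i j)
      calc _ = (dv L (plqT U x i j) ^ 2) ^ 2 := by ring
        _ = _ := by rw [this]; ring
    rw [h2]
    obtain ⟨y, hy⟩ : ∃ y, y = we L (plqT U x i j) := ⟨_, rfl⟩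
    have hy0 : 0 ≤ y := by rw [hy]; exact we_nonneg _
    rw [← hy]
    have h3 := Real.quadratic_le_exp_of_nonneg (show 0 ≤ β / 2 * y by positivity)
    have h4 : β ^ 2 / 8 * y ^ 2 ≤ Real.exp (β / 2 * y) := by
      have : 0 ≤ β / 2 * y := by positivity
      nlinarith
    calc 4 * y ^ 2 = 32 / β ^ 2 * (β ^ 2 / 8 * y ^ 2) := by field_simp; ring
      _ ≤ _ := mul_le_mul_of_nonneg_left h4 (by positivity)
  have h2 := EX_mono μ (L := L) (β := β) (F := fun U : Ed d (2 * m) → G =>
    dv L (plqT U x i j) ^ 4) (H := fun U => 32 / β ^ 2 *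
      Real.exp (β / 2 * we L (plqT U x i j))) ((dv_cont.comp (plqT_cont x i j)).pow 4)
    (continuous_const.mul (Real.continuous_exp.comp (continuous_const.mul hwc))) h1
  refine h2.trans ?_
  rw [EX_smul]
  have h3 := plaq_exp μ (L := L) hm hβ hij x
  calc _ ≤ 32 / β ^ 2 * (DD N ^ 2 : ℝ) := mul_le_mul_of_nonneg_left h3 (by positivity)
    _ = _ := by ring

end

end Pool.Agent.Run7.h630.YM
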